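import Mathlib

/-!
# Hodge classes on products with abelian varieties with complex multiplication: definitions

`K i` are CM fields. An abelian variety `A i` with complex multiplication by (an order of) `K i` has a
first cohomology group which is a vector space of dimension one over `K i`; we identify it with
`K i`. The Hodge decomposition is given by a set `Φ` of embeddings of the fields `K i` in the
complex numbers.
-/

set_option autoImplicit false

open scoped TensorProduct

namespace Pool.Agent.W484.AH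

/-- The set of all embeddings of the fields `K i` in the complex numbers. -/
abbrev Emb {ι : Type} (K : ι → Type) [∀ i, Field (K i)] : Type := Σ i, (K i →+* ℂ)

variable {ι : Type} {K : ι → Type} [∀ i, Field (K i)]

/-- The complex conjugate of an embedding. -/
def bar (e : Emb K) : Emb K := ⟨e.1, (starRingEnd ℂ).comp e.2⟩

/-- The action of a field automorphism of the complex numbers on the embeddings. -/
def move (s : ℂ ≃+* ℂ) (e : Emb K) : Emb K := ⟨e.1, (s : ℂ →+* ℂ).comp e.2⟩

/-- `Φ` contains exactly one embedding of each pair of complex conjugate embeddings. For each `i` the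
embeddings of `K i` in `Φ` are the CM type of `A i`: the subspace of type `(1, 0)` of the complex
cohomology is the sum of the eigenspaces of `K i` belonging to the embeddings in `Φ`. -/
def IsCMType (Φ : Set (Emb K)) : Prop := ∀ e, bar e ∈ Φ ↔ e ∉ Φ

/-- Each embedding `e` can be replaced by its complex conjugate, while all the embeddings which are
different from `e` and its conjugate are fixed, by an automorphism of the complex numbers: the Galois
group of the compositum of the fields contains all sign changes. -/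
def SignChanges {ι : Type} (K : ι → Type) [∀ i, Field (K i)] : Prop :=
  ∀ e : Emb K, ∃ s : ℂ ≃+* ℂ, move s e = bar e ∧ move s (bar e) = e ∧
    ∀ x : Emb K, x ≠ e → x ≠ bar e → move s x = x

variable [∀ i, NumberField (K i)]

/-- `H` is a rational vector space, `Hd p` the subspace of type `(p, *)` of `ℂ ⊗ H`. A multilinear
map from `K (j 1) × ⋯ × K (j a)` to `H` is a *Hodge form* of twist `c` if its complexification maps
the tensor product of the eigenspaces of the embeddings `φ 1, …, φ a` to `Hd (c + n)`, where `n` is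
the number of the indices `t` such that `φ t` is in `Φ`. So Hodge forms are the morphisms of Hodge
structures from `H¹ (A (j 1)) ⊗ ⋯ ⊗ H¹ (A (j a))` to a Tate twist of `H`. -/
def IsHodgeForm (Φ : Set (Emb K)) {H : Type} [AddCommGroup H] [Module ℚ H]
    (Hd : ℤ → Submodule ℂ (ℂ ⊗[ℚ] H)) (c : ℤ) {a : ℕ} (j : Fin a → ι)
    (f : MultilinearMap ℚ (fun t => K (j t)) H) : Prop :=
  ∃ X : (∀ t, K (j t) →+* ℂ) → ℂ ⊗[ℚ] H,
    (∀ φ, X φ ∈ Hd (c + ({t | (⟨j t, φ t⟩ : Emb K) ∈ Φ} : Set (Fin a)).ncard)) ∧
    ∀ x, (1 : ℂ) ⊗ₜ[ℚ] f x = ∑ φ, (∏ t, φ t (x t)) • X φ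

/-- A bilinear form on `K i × K i'` is a *divisor form* if it is a Hodge class of type `(1, 1)` in
`H¹ (A i) ⊗ H¹ (A i')` (up to a twist): the eigenspaces of two embeddings pair to zero if both
embeddings are in `Φ` or both are not in `Φ`. By the theorem of Lefschetz these forms are the classes
of divisors. -/
def IsDivisorForm (Φ : Set (Emb K)) {i i' : ι} (B : K i →ₗ[ℚ] K i' →ₗ[ℚ] ℚ) : Prop :=
  ∃ β : (K i →+* ℂ) → (K i' →+* ℂ) → ℂ,
    (∀ φ ψ, β φ ψ ≠ 0 → ((⟨i, φ⟩ : Emb K) ∈ Φ ↔ (⟨i', ψ⟩ : Emb K) ∉ Φ)) ∧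
    ∀ x y, ((B x y : ℚ) : ℂ) = ∑ φ, ∑ ψ, β φ ψ * (φ x * ψ y)

/-- The rational classes in `H` which are in `Hd p`: for a Hodge structure of weight `2 p` these are
the Hodge classes. -/
def hodgeClasses {H : Type} [AddCommGroup H] [Module ℚ H]
    (Hd : ℤ → Submodule ℂ (ℂ ⊗[ℚ] H)) (p : ℤ) : Set H := {h | (1 : ℂ) ⊗ₜ[ℚ] h ∈ Hd p}

/-- A multilinear map from `K (j 1) × ⋯ × K (j a)` to `H` is a *product form* if `a = 2 n`, the `a`
variables are divided in `n` pairs and `f` is the product of divisor forms, one for each pair, and a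
Hodge class `h` of `H` which is in `good`. -/
def IsProductForm (Φ : Set (Emb K)) {H : Type} [AddCommGroup H] [Module ℚ H]
    (Hd : ℤ → Submodule ℂ (ℂ ⊗[ℚ] H)) (good : Set H) (c : ℤ) {a : ℕ} (j : Fin a → ι)
    (f : MultilinearMap ℚ (fun t => K (j t)) H) : Prop :=
  ∃ (n : ℕ) (e : Fin n ⊕ Fin n ≃ Fin a)
    (B : ∀ k : Fin n, K (j (e (Sum.inl k))) →ₗ[ℚ] K (j (e (Sum.inr k))) →ₗ[ℚ] ℚ) (h : H),
    (∀ k, IsDivisorForm Φ (B k)) ∧ h ∈ hodgeClasses Hd (c + n) ∧ h ∈ good ∧
    ∀ x, f x = (∏ k, B k (x (e (Sum.inl k))) (x (e (Sum.inr k)))) • h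

/-- All Hodge forms on products of the `K i`, `i` not in `S`, are rational linear combinations of
product forms, where the Hodge classes of `H` which occur are in `good`, for any set `good`
containing all Hodge classes of `H` (for instance all absolute Hodge classes or all algebraic
classes, if all Hodge classes of `H` are absolute Hodge or algebraic). -/
def FormsAreProducts (Φ : Set (Emb K)) {H : Type} [AddCommGroup H] [Module ℚ H]
    (Hd : ℤ → Submodule ℂ (ℂ ⊗[ℚ] H)) (S : Finset ι) : Prop :=
  ∀ good : Set H, (∀ p, hodgeClasses Hd p ⊆ good) →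
    ∀ (c : ℤ) (a : ℕ) (j : Fin a → ι), (∀ t, j t ∉ S) →
      ∀ f : MultilinearMap ℚ (fun t => K (j t)) H, IsHodgeForm Φ Hd c j f →
        f ∈ Submodule.span ℚ {f' | IsProductForm Φ Hd good c j f'}

end Pool.Agent.W484.AH
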