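import Mathlib
import Pool.Agent.W484.AH.Defs

/-!
# Conjugate gradings and linear independence
-/

set_option autoImplicit false

open scoped TensorProduct

namespace Pool.Agent.W484.AH

section tw

variable {H : Type} [AddCommGroup H] [Module ℚ H]

/-- The action of an automorphism of `ℂ` on `ℂ ⊗ H`. -/
noncomputable def tw (s : ℂ ≃+* ℂ) : (ℂ ⊗[ℚ] H) →ₗ[ℚ] (ℂ ⊗[ℚ] H) :=
  LinearMap.rTensor H ((s : ℂ →+* ℂ).toAddMonoidHom.toRatLinearMap)

@[simp] lemma tw_tmul (s : ℂ ≃+* ℂ) (z : ℂ) (h : H) : tw s (z ⊗ₜ[ℚ] h) = (s z) ⊗ₜ[ℚ] h := by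
  simp [tw]

lemma tw_smul (s : ℂ ≃+* ℂ) (z : ℂ) (x : ℂ ⊗[ℚ] H) : tw s (z • x) = (s z) • tw s x := by
  induction x with
  | zero => simp
  | tmul a b => simp [TensorProduct.smul_tmul', map_mul]
  | add x y hx hy => rw [smul_add, map_add, hx, hy, map_add, smul_add]

lemma tw_tw (s r : ℂ ≃+* ℂ) (x : ℂ ⊗[ℚ] H) : tw s (tw r x) = tw (r.trans s) x := by
  induction x with
  | zero => simp
  | tmul a b => simp
  | add x y hx hy => rw [map_add, map_add, map_add, hx, hy]

lemma tw_symm (s : ℂ ≃+* ℂ) (x : ℂ ⊗[ℚ] H) : tw s (tw s.symm x) = x := by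
  induction x with
  | zero => simp
  | tmul a b => simp
  | add x y hx hy => rw [map_add, map_add, hx, hy]

lemma symm_tw (s : ℂ ≃+* ℂ) (x : ℂ ⊗[ℚ] H) : tw s.symm (tw s x) = x := by
  induction x with
  | zero => simp
  | tmul a b => simp
  | add x y hx hy => rw [map_add, map_add, hx, hy]

lemma tw_ne (s : ℂ ≃+* ℂ) {x : ℂ ⊗[ℚ] H} (hx : x ≠ 0) : tw s x ≠ 0 := by
  intro h
  apply hx
  rw [← symm_tw s x, h, map_zero]

/-- A relation splits in the homogeneous relations. -/
lemma split_relation {Hd : ℤ → Submodule ℂ (ℂ ⊗[ℚ] H)} (hHd : iSupIndep Hd) {κ : Type}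
    [DecidableEq κ] (S : Finset κ) (v : κ → ℂ ⊗[ℚ] H) (n : κ → ℤ)
    (hv : ∀ k ∈ S, v k ∈ Hd (n k)) (h0 : ∑ k ∈ S, v k = 0) (d : ℤ) :
    ∑ k ∈ S with n k = d, v k = 0 := by
  classical
  by_cases hd : d ∈ S.image n
  · have h := (iSupIndep_iff_finsetSum_eq_zero_imp_eq_zero Hd).1 hHd (S.image n)
      (fun d => ∑ k ∈ S with n k = d, v k)
      (fun e _ => Submodule.sum_mem _ fun k hk => by
        rw [Finset.mem_filter] at hk
        exact hk.2 ▸ hv k hk.1)
      (by
        rw [← h0]
        exact Finset.sum_fiberwise_of_maps_to (fun k hk => Finset.mem_image_of_mem n hk) v)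
    exact h d hd
  · rw [Finset.filter_false_of_mem, Finset.sum_empty]
    intro k hk e
    exact hd (e ▸ Finset.mem_image_of_mem n hk)

/-- Vectors which are homogeneous for all conjugates of a grading, of different types, are linearly
independent. -/
theorem independent_of_types {Hd : ℤ → Submodule ℂ (ℂ ⊗[ℚ] H)} (hHd : iSupIndep Hd) {κ : Type}
    (x : κ → ℂ ⊗[ℚ] H) (N : κ → (ℂ ≃+* ℂ) → ℤ) (hx : ∀ k s, tw s.symm (x k) ∈ Hd (N k s))
    (hne : ∀ k, x k ≠ 0) (hN : Function.Injective N) : LinearIndependent ℂ x := by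
  classical
  rw [linearIndependent_iff']
  intro S
  induction S using Finset.strongInduction with
  | H S ih =>
    intro c hc m hm
    by_cases h1 : ∀ k ∈ S, k = m
    · have hS : S = {m} := by
        ext k
        constructor
        · intro hk; simpa using h1 k hk
        · intro hk; rw [Finset.mem_singleton] at hk; exact hk ▸ hm
      rw [hS, Finset.sum_singleton] at hc
      exact (smul_eq_zero.1 hc).resolve_right (hne m)
    · push Not at h1
      obtain ⟨k, hk, hkm⟩ := h1
      have hNkm : N k ≠ N m := fun h => hkm (hN h)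
      obtain ⟨s, hs⟩ := Function.ne_iff.1 hNkm
      have hrel : ∑ l ∈ S, (s.symm (c l)) • tw s.symm (x l) = 0 := by
        have := congrArg (tw s.symm) hc
        rw [map_sum, map_zero] at this
        rw [← this]
        exact Finset.sum_congr rfl fun l _ => (tw_smul _ _ _).symm
      have hsplit := split_relation hHd S (fun l => (s.symm (c l)) • tw s.symm (x l))
        (fun l => N l s) (fun l _ => Submodule.smul_mem _ _ (hx l s)) hrel (N m s)
      have hback : ∑ l ∈ S with N l s = N m s, c l • x l = 0 := by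
        have := congrArg (tw s) hsplit
        rw [map_sum, map_zero] at this
        rw [← this]
        refine Finset.sum_congr rfl fun l _ => ?_
        rw [tw_smul, tw_symm]
        simp
      refine ih _ ?_ c hback m (by simp [hm])
      refine Finset.ssubset_iff_subset_ne.2 ⟨Finset.filter_subset _ _, fun h => hs ?_⟩
      have : k ∈ S.filter (fun l => N l s = N m s) := by rw [h]; exact hk
      exact (Finset.mem_filter.1 this).2

end tw

end Pool.Agent.W484.AH
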