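import Mathlib
import Pool.Agent.W484.AH.Tw

/-!
# Types of vectors and the finite set of bad factors
-/

set_option autoImplicit false

open scoped TensorProduct
open Module

namespace Pool.Agent.W484.AH

section emb

variable {ι : Type} {K : ι → Type} [∀ i, Field (K i)]

lemma bar_bar (e : Emb K) : bar (bar e) = e := by
  obtain ⟨i, φ⟩ := e
  refine Sigma.ext rfl (heq_of_eq (RingHom.ext fun x => ?_))
  exact Complex.conj_conj _

lemma move_move (s r : ℂ ≃+* ℂ) (e : Emb K) : move s (move r e) = move (r.trans s) e := rfl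

lemma move_symm (s : ℂ ≃+* ℂ) (e : Emb K) : move s (move s.symm e) = e := by
  obtain ⟨i, φ⟩ := e
  refine Sigma.ext rfl (heq_of_eq (RingHom.ext fun x => ?_))
  exact s.apply_symm_apply (φ x)

lemma symm_move (s : ℂ ≃+* ℂ) (e : Emb K) : move s.symm (move s e) = e := by
  obtain ⟨i, φ⟩ := e
  refine Sigma.ext rfl (heq_of_eq (RingHom.ext fun x => ?_))
  exact s.symm_apply_apply (φ x)

lemma move_injective (s : ℂ ≃+* ℂ) : Function.Injective (move (K := K) s) := by
  intro x y h
  rw [← symm_move s x, h, symm_move]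

variable [∀ i, NumberField (K i)] [∀ i, NumberField.IsCMField (K i)]

lemma move_bar (s : ℂ ≃+* ℂ) (e : Emb K) : move s (bar e) = bar (move s e) := by
  obtain ⟨i, φ⟩ := e
  refine Sigma.ext rfl (heq_of_eq (RingHom.ext fun x => ?_))
  change s (starRingEnd ℂ (φ x)) = starRingEnd ℂ (s (φ x))
  have h1 := NumberField.IsCMField.complexEmbedding_complexConj (K i) φ x
  have h2 := NumberField.IsCMField.complexEmbedding_complexConj (K i) ((s : ℂ →+* ℂ).comp φ) x
  change s (φ (NumberField.IsCMField.complexConj (K i) x)) = starRingEnd ℂ (s (φ x)) at h2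
  rw [← h2, h1]

omit [∀ i, NumberField.IsCMField (K i)] [∀ i, NumberField (K i)] in
lemma bar_ne {Φ : Set (Emb K)} (hΦ : IsCMType Φ) (e : Emb K) : bar e ≠ e := by
  intro h
  have := hΦ e
  rw [h] at this
  tauto

end emb

section types

variable {ι : Type} {K : ι → Type} [∀ i, Field (K i)] (Φ : Set (Emb K))

open Classical in
/-- `0` or `1`: whether the embedding is in the type. -/
noncomputable def ind (e : Emb K) : ℤ := if e ∈ Φ then 1 else 0

/-- The type of a tensor product of eigenvectors for all the conjugate gradings. -/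
noncomputable def typ (c : ℤ) {a : ℕ} (φ : Fin a → Emb K) (s : ℂ ≃+* ℂ) : ℤ :=
  c + ∑ t, ind Φ (move s.symm (φ t))

variable {Φ} {H : Type} [AddCommGroup H] [Module ℚ H]

/-- There is a non zero vector of the type of `φ`. -/
def Eff (Φ : Set (Emb K)) (Hd : ℤ → Submodule ℂ (ℂ ⊗[ℚ] H)) (c : ℤ) {a : ℕ} (φ : Fin a → Emb K) :
    Prop :=
  ∃ x : ℂ ⊗[ℚ] H, x ≠ 0 ∧ ∀ s : ℂ ≃+* ℂ, tw s.symm x ∈ Hd (typ Φ c φ s)

lemma Eff.move {Hd : ℤ → Submodule ℂ (ℂ ⊗[ℚ] H)} {c : ℤ} {a : ℕ} {φ : Fin a → Emb K}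
    (h : Eff Φ Hd c φ) (r : ℂ ≃+* ℂ) : Eff Φ Hd c (fun t => AH.move r (φ t)) := by
  obtain ⟨x, hx, hs⟩ := h
  refine ⟨tw r x, tw_ne r hx, fun s => ?_⟩
  have h1 := hs (s.trans r.symm)
  rw [tw_tw]
  have h2 : typ Φ c φ (s.trans r.symm) = typ Φ c (fun t => AH.move r (φ t)) s := by
    simp only [typ, move_move]
    rfl
  rw [← h2]
  exact h1

lemma ind_bar (hΦ : IsCMType Φ) (e : Emb K) : ind Φ (bar e) = 1 - ind Φ e := by
  classical
  simp only [ind]
  have := hΦ e
  by_cases h : e ∈ Φ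
  · have h' : bar e ∉ Φ := fun h1 => (this.1 h1) h
    simp [h, h']
  · have h' : bar e ∈ Φ := this.2 h
    simp [h, h']

/-- `1` or `-1`. -/
noncomputable def sg (Φ : Set (Emb K)) (e : Emb K) (s : ℂ ≃+* ℂ) : ℤ :=
  2 * ind Φ (move s.symm e) - 1

lemma sg_ne (e : Emb K) (s : ℂ ≃+* ℂ) : sg Φ e s ≠ 0 := by
  classical
  simp only [sg, ind]
  split_ifs <;> norm_num

end types

section diff

variable {ι : Type} {K : ι → Type} [∀ i, Field (K i)] [∀ i, NumberField (K i)]
  [∀ i, NumberField.IsCMField (K i)] {Φ : Set (Emb K)}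

open Classical in
/-- The multiplicity of `e`. -/
noncomputable def mult {a : ℕ} (φ : Fin a → Emb K) (e : Emb K) : ℕ :=
  (Finset.univ.filter fun t => φ t = e).card

lemma sg_bar (hΦ : IsCMType Φ) (e : Emb K) (s : ℂ ≃+* ℂ) : sg Φ (bar e) s = - sg Φ e s := by
  simp only [sg]
  rw [move_bar, ind_bar hΦ]
  ring

lemma typ_sub (hΦ : IsCMType Φ) (c : ℤ) {a : ℕ} (φ : Fin a → Emb K) (e : Emb K) (r : ℂ ≃+* ℂ)
    (h1 : move r e = bar e) (h2 : move r (bar e) = e)
    (h3 : ∀ x : Emb K, x ≠ e → x ≠ bar e → move r x = x) (s : ℂ ≃+* ℂ) :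
    typ Φ c φ s - typ Φ c (fun t => move r (φ t)) s = ((mult φ e : ℤ) - mult φ (bar e)) * sg Φ e s := by
  classical
  have hne := bar_ne hΦ e
  have hterm : ∀ t, ind Φ (move s.symm (φ t)) - ind Φ (move s.symm (move r (φ t)))
      = (if φ t = e then sg Φ e s else 0) - (if φ t = bar e then sg Φ e s else 0) := by
    intro t
    by_cases ha : φ t = e
    · rw [if_pos ha, if_neg (by rw [ha]; exact hne.symm), ha, h1, move_bar, ind_bar hΦ, sg]
      ring
    · by_cases hb : φ t = bar e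
      · rw [if_neg ha, if_pos hb, hb, h2, move_bar, ind_bar hΦ, sg]
        ring
      · rw [if_neg ha, if_neg hb, h3 _ ha hb]
        ring
  simp only [typ]
  rw [add_sub_add_left_eq_sub, ← Finset.sum_sub_distrib, Finset.sum_congr rfl fun t _ => hterm t,
    Finset.sum_sub_distrib, ← Finset.sum_filter, ← Finset.sum_filter, Finset.sum_const,
    Finset.sum_const]
  simp only [mult, nsmul_eq_mul]
  ring

/-- The bad factors of `H`. -/
def bad (Φ : Set (Emb K)) {H : Type} [AddCommGroup H] [Module ℚ H]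
    (Hd : ℤ → Submodule ℂ (ℂ ⊗[ℚ] H)) : Set ι :=
  {i | ∃ (a : ℕ) (φ : Fin a → Emb K) (c : ℤ) (e : Emb K), Eff Φ Hd c φ ∧ e.1 = i ∧
    mult φ e ≠ mult φ (bar e)}

/-- There are few bad factors. -/
theorem bad_small (hΦ : IsCMType Φ) (hS : SignChanges K) {H : Type} [AddCommGroup H] [Module ℚ H]
    [Module.Finite ℚ H] {Hd : ℤ → Submodule ℂ (ℂ ⊗[ℚ] H)} (hHd : iSupIndep Hd) (S : Finset ι)
    (hSb : ∀ i ∈ S, i ∈ bad Φ Hd) : S.card ≤ finrank ℚ H := by
  classical
  -- the set of all types of effective families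
  let F : Set ((ℂ ≃+* ℂ) → ℤ) := {N | ∃ (a : ℕ) (φ : Fin a → Emb K) (c : ℤ), Eff Φ Hd c φ ∧
    N = typ Φ c φ}
  have hF : ∀ N : F, ∃ x : ℂ ⊗[ℚ] H, x ≠ 0 ∧ ∀ s, tw s.symm x ∈ Hd (N.1 s) := by
    rintro ⟨N, a, φ, c, ⟨x, hx, hs⟩, rfl⟩
    exact ⟨x, hx, hs⟩
  choose x hx0 hxs using hF
  have hli : LinearIndependent ℂ x :=
    independent_of_types hHd x (fun N => N.1) hxs hx0 Subtype.val_injective
  have hfin : Finite F := hli.finite
  have : Fintype F := Fintype.ofFinite F
  have hcard : Fintype.card F ≤ finrank ℚ H := by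
    have := hli.fintype_card_le_finrank
    rwa [Module.finrank_baseChange] at this
  -- the rational span of the types
  let W : Submodule ℚ ((ℂ ≃+* ℂ) → ℚ) :=
    Submodule.span ℚ (Set.range fun N : F => fun s => ((N.1 s : ℤ) : ℚ))
  have hW : finrank ℚ W ≤ Fintype.card F := finrank_range_le_card _
  have : Module.Finite ℚ W := Module.Finite.span_of_finite ℚ (Set.finite_range _)
  have hbad : ∀ i : S, ∃ e : Emb K, e.1 = i.1 ∧ (fun s => ((sg Φ e s : ℤ) : ℚ)) ∈ W := by
    intro i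
    obtain ⟨a, φ, c, e, hE, hei, hm⟩ := hSb i.1 i.2
    refine ⟨e, hei, ?_⟩
    obtain ⟨r, h1, h2, h3⟩ := hS e
    have hA : (fun s => ((typ Φ c φ s : ℤ) : ℚ)) ∈ W :=
      Submodule.subset_span ⟨⟨typ Φ c φ, a, φ, c, hE, rfl⟩, rfl⟩
    have hB : (fun s => ((typ Φ c (fun t => move r (φ t)) s : ℤ) : ℚ)) ∈ W :=
      Submodule.subset_span ⟨⟨typ Φ c (fun t => move r (φ t)), a, _, c, hE.move r, rfl⟩, rfl⟩
    have hsub := W.sub_mem hA hB
    have hmq : ((mult φ e : ℚ) - mult φ (bar e)) ≠ 0 := by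
      intro h0
      exact hm (by exact_mod_cast sub_eq_zero.1 h0)
    have : (fun s => ((sg Φ e s : ℤ) : ℚ)) = (((mult φ e : ℚ) - mult φ (bar e))⁻¹) •
        ((fun s => ((typ Φ c φ s : ℤ) : ℚ)) -
          (fun s => ((typ Φ c (fun t => move r (φ t)) s : ℤ) : ℚ))) := by
      funext s
      have h := typ_sub hΦ c φ e r h1 h2 h3 s
      simp only [Pi.smul_apply, Pi.sub_apply, smul_eq_mul]
      have h' : ((typ Φ c φ s : ℤ) : ℚ) - ((typ Φ c (fun t => move r (φ t)) s : ℤ) : ℚ)
          = ((mult φ e : ℚ) - mult φ (bar e)) * ((sg Φ e s : ℤ) : ℚ) := by exact_mod_cast h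
      rw [h', ← mul_assoc, inv_mul_cancel₀ hmq, one_mul]
    rw [this]
    exact W.smul_mem _ hsub
  choose e hei heW using hbad
  have hind : LinearIndependent ℚ (fun i : S => (⟨_, heW i⟩ : W)) := by
    apply LinearIndependent.of_comp W.subtype
    have : (W.subtype ∘ fun i : S => (⟨_, heW i⟩ : W)) =
        fun i : S => (fun s => ((sg Φ (e i) s : ℤ) : ℚ)) := rfl
    rw [this, Fintype.linearIndependent_iff]
    intro c hc k
    obtain ⟨r, h1, h2, h3⟩ := hS (e k)
    have ha := congrFun hc (RingEquiv.refl ℂ)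
    have hb := congrFun hc r.symm
    simp only [Finset.sum_apply, Pi.smul_apply, smul_eq_mul, Pi.zero_apply] at ha hb
    have hdiff : ∀ i : S, c i * ((sg Φ (e i) (RingEquiv.refl ℂ) : ℤ) : ℚ)
        - c i * ((sg Φ (e i) r.symm : ℤ) : ℚ)
        = if i = k then 2 * (c k * ((sg Φ (e k) (RingEquiv.refl ℂ) : ℤ) : ℚ)) else 0 := by
      intro i
      by_cases hik : i = k
      · rw [if_pos hik, hik]
        have h4 : sg Φ (e k) r.symm = - sg Φ (e k) (RingEquiv.refl ℂ) := by
          rw [← sg_bar hΦ]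
          simp only [sg]
          have : move r.symm.symm (e k) = bar (e k) := h1
          rw [this]
          rfl
        rw [h4]
        push_cast
        ring
      · rw [if_neg hik]
        have hne1 : e i ≠ e k := fun h => hik (by
          apply Subtype.ext
          rw [← hei i, ← hei k, h])
        have hne2 : e i ≠ bar (e k) := fun h => hik (by
          apply Subtype.ext
          rw [← hei i, ← hei k, h]; rfl)
        have h4 : sg Φ (e i) r.symm = sg Φ (e i) (RingEquiv.refl ℂ) := by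
          simp only [sg]
          have : move r.symm.symm (e i) = e i := h3 _ hne1 hne2
          rw [this]
          rfl
        rw [h4]
        ring
    have hsum : ∑ i : S, (c i * ((sg Φ (e i) (RingEquiv.refl ℂ) : ℤ) : ℚ)
        - c i * ((sg Φ (e i) r.symm : ℤ) : ℚ)) = 0 := by
      rw [Finset.sum_sub_distrib, ha, hb, sub_zero]
    rw [Finset.sum_congr rfl fun i _ => hdiff i, Finset.sum_ite_eq' Finset.univ k] at hsum
    simp only [Finset.mem_univ, if_true] at hsum
    have h5 : ((sg Φ (e k) (RingEquiv.refl ℂ) : ℤ) : ℚ) ≠ 0 := by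
      exact_mod_cast sg_ne _ _
    rcases mul_eq_zero.1 hsum with h6 | h6
    · norm_num at h6
    · exact (mul_eq_zero.1 h6).resolve_right h5
  have := hind.fintype_card_le_finrank
  rw [Fintype.card_coe] at this
  omega

end diff

end Pool.Agent.W484.AH
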