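import Mathlib
import Pool.Agent.W484.AH.Types

/-!
# The components of Hodge forms
-/

set_option autoImplicit false

open scoped TensorProduct
open Module

namespace Pool.Agent.W484.AH

section chars

variable {ι : Type} {K : ι → Type} [∀ i, Field (K i)]

/-- The product character of a family of embeddings. -/
noncomputable def chi {a : ℕ} {j : Fin a → ι} (φ : ∀ t, K (j t) →+* ℂ) : (∀ t, K (j t)) →* ℂ where
  toFun x := ∏ t, φ t (x t)
  map_one' := by simp
  map_mul' x y := by simp [Finset.prod_mul_distrib]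

lemma chi_apply {a : ℕ} {j : Fin a → ι} (φ : ∀ t, K (j t) →+* ℂ) (x : ∀ t, K (j t)) :
    chi φ x = ∏ t, φ t (x t) := rfl

lemma chi_injective {a : ℕ} {j : Fin a → ι} :
    Function.Injective (chi (K := K) (j := j)) := by
  classical
  intro φ ψ h
  funext t
  ext z
  have := DFunLike.congr_fun h (fun u => if hu : u = t then hu ▸ z else 1)
  rw [chi_apply, chi_apply] at this
  rw [Finset.prod_eq_single t, Finset.prod_eq_single t] at this
  · simpa using this
  · intro u _ hu; simp [hu]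
  · simp
  · intro u _ hu; simp [hu]
  · simp

/-- The action on families. -/
def moveFam {a : ℕ} {j : Fin a → ι} (s : ℂ ≃+* ℂ) (φ : ∀ t, K (j t) →+* ℂ) :
    ∀ t, K (j t) →+* ℂ := fun t => (s : ℂ →+* ℂ).comp (φ t)

lemma moveFam_symm {a : ℕ} {j : Fin a → ι} (s : ℂ ≃+* ℂ) (φ : ∀ t, K (j t) →+* ℂ) :
    moveFam s (moveFam s.symm φ) = φ := by
  funext t
  ext z
  exact s.apply_symm_apply (φ t z)

lemma symm_moveFam {a : ℕ} {j : Fin a → ι} (s : ℂ ≃+* ℂ) (φ : ∀ t, K (j t) →+* ℂ) :
    moveFam s.symm (moveFam s φ) = φ := by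
  funext t
  ext z
  exact s.symm_apply_apply (φ t z)

end chars

section unique

variable {ι : Type} {K : ι → Type} [∀ i, Field (K i)] [∀ i, NumberField (K i)]

lemma components_zero {W : Type} [AddCommGroup W] [Module ℂ W] {a : ℕ} {j : Fin a → ι}
    (Z : (∀ t, K (j t) →+* ℂ) → W) (h : ∀ x : (∀ t, K (j t)), ∑ φ : (∀ t, K (j t) →+* ℂ), (∏ t, φ t (x t)) • Z φ = 0)
    (φ : ∀ t, K (j t) →+* ℂ) : Z φ = 0 := by
  classical
  by_contra hne
  obtain ⟨ℓ, hℓ⟩ : ∃ ℓ : W →ₗ[ℂ] ℂ, ℓ (Z φ) ≠ 0 := by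
    by_contra hc
    push Not at hc
    exact hne ((Module.forall_dual_apply_eq_zero_iff ℂ (Z φ)).1 hc)
  have hli := (linearIndependent_monoidHom (∀ t, K (j t)) ℂ).comp (chi (K := K) (j := j))
    chi_injective
  rw [Fintype.linearIndependent_iff] at hli
  refine hℓ (hli (fun φ => ℓ (Z φ)) ?_ φ)
  funext x
  have := congrArg ℓ (h x)
  rw [map_sum, map_zero] at this
  rw [Finset.sum_apply, Pi.zero_apply, ← this]
  refine Finset.sum_congr rfl fun φ _ => ?_
  rw [map_smul, smul_eq_mul]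
  simp only [Pi.smul_apply, Function.comp_apply, smul_eq_mul, chi_apply, mul_comm]

variable {H : Type} [AddCommGroup H] [Module ℚ H]

lemma equivariant {a : ℕ} {j : Fin a → ι} {f : MultilinearMap ℚ (fun t => K (j t)) H}
    {X : (∀ t, K (j t) →+* ℂ) → ℂ ⊗[ℚ] H}
    (hX : ∀ x : (∀ t, K (j t)), (1 : ℂ) ⊗ₜ[ℚ] f x =
      ∑ φ : (∀ t, K (j t) →+* ℂ), (∏ t, φ t (x t)) • X φ) (s : ℂ ≃+* ℂ)
    (φ : ∀ t, K (j t) →+* ℂ) : tw s (X φ) = X (moveFam s φ) := by
  classical
  have key : ∀ ψ, tw s (X (moveFam s.symm ψ)) - X ψ = 0 := by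
    apply components_zero (fun ψ => tw s (X (moveFam s.symm ψ)) - X ψ)
    intro x
    simp only [smul_sub, Finset.sum_sub_distrib]
    rw [← hX x]
    have h1 := congrArg (tw s) (hX x)
    rw [map_sum, tw_tmul, map_one] at h1
    rw [h1, sub_eq_zero]
    refine Fintype.sum_bijective (moveFam s.symm) ⟨fun φ ψ h => ?_, fun φ => ⟨moveFam s φ, symm_moveFam s φ⟩⟩
      _ _ fun ψ => ?_
    · rw [← moveFam_symm s φ, h, moveFam_symm]
    · rw [tw_smul, map_prod]
      congr 1
      refine Finset.prod_congr rfl fun t _ => ?_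
      exact (s.apply_symm_apply (ψ t (x t))).symm
  have := key (moveFam s φ)
  rw [symm_moveFam] at this
  exact sub_eq_zero.1 this

/-- Non zero components give effective families. -/
lemma eff_of_ne {Φ : Set (Emb K)} {Hd : ℤ → Submodule ℂ (ℂ ⊗[ℚ] H)} {c : ℤ} {a : ℕ} {j : Fin a → ι}
    {f : MultilinearMap ℚ (fun t => K (j t)) H} {X : (∀ t, K (j t) →+* ℂ) → ℂ ⊗[ℚ] H}
    (hX1 : ∀ φ, X φ ∈ Hd (c + ({t | (⟨j t, φ t⟩ : Emb K) ∈ Φ} : Set (Fin a)).ncard))
    (hX : ∀ x : (∀ t, K (j t)), (1 : ℂ) ⊗ₜ[ℚ] f x =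
      ∑ φ : (∀ t, K (j t) →+* ℂ), (∏ t, φ t (x t)) • X φ) {φ : ∀ t, K (j t) →+* ℂ}
    (hne : X φ ≠ 0) : Eff Φ Hd c (fun t => (⟨j t, φ t⟩ : Emb K)) := by
  classical
  refine ⟨X φ, hne, fun s => ?_⟩
  rw [equivariant hX s.symm φ]
  have h := hX1 (moveFam s.symm φ)
  have h2 : typ Φ c (fun t => (⟨j t, φ t⟩ : Emb K)) s =
      c + ({t | (⟨j t, moveFam s.symm φ t⟩ : Emb K) ∈ Φ} : Set (Fin a)).ncard := by
    simp only [typ, ind]
    rw [Finset.sum_boole, Set.ncard_eq_toFinset_card']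
    congr 3
    ext t
    simp only [Finset.mem_filter, Finset.mem_univ, true_and, Set.mem_toFinset, Set.mem_ofPred_eq]
    rfl
  rw [h2]
  exact h

end unique

section divisor

variable {ι : Type} {K : ι → Type} [∀ i, Field (K i)] [∀ i, NumberField (K i)]
  [∀ i, NumberField.IsCMField (K i)] {Φ : Set (Emb K)}

/-- The product of conjugate embeddings is a combination of divisor forms. -/
lemma divisor_span (hΦ : IsCMType Φ) (e f : Emb K) (hf : f = bar e) :
    ∃ (n : ℕ) (z : Fin n → ℂ) (B : Fin n → (K e.1 →ₗ[ℚ] K f.1 →ₗ[ℚ] ℚ)),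
      (∀ k, IsDivisorForm Φ (B k)) ∧
      ∀ x y, e.2 x * f.2 y = ∑ k, z k * ((B k x y : ℚ) : ℂ) := by
  classical
  subst hf
  obtain ⟨i, φ⟩ := e
  let b := Module.finBasis ℚ (K i)
  let cc : K i →ₗ[ℚ] K i :=
    { toFun := fun y => NumberField.IsCMField.complexConj (K i) y
      map_add' := fun x y => map_add _ x y
      map_smul' := fun q y => by
        simp only [Rat.smul_def, map_mul, map_ratCast, RingHom.id_apply] }
  let B : Fin (finrank ℚ (K i)) → (K i →ₗ[ℚ] K i →ₗ[ℚ] ℚ) := fun k =>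
    LinearMap.mk₂ ℚ (fun x y => b.coord k (x * cc y))
      (fun x x' y => by rw [add_mul, map_add]) (fun q x y => by rw [smul_mul_assoc, map_smul])
      (fun x y y' => by rw [map_add, mul_add, map_add])
      (fun q x y => by rw [map_smul, mul_smul_comm, map_smul])
  refine ⟨finrank ℚ (K i), fun k => φ (b k), B, fun k => ?_, fun x y => ?_⟩
  · let ξ : K i := (LinearMap.BilinForm.toDual (Algebra.traceForm ℚ (K i))
      (traceForm_nondegenerate ℚ (K i))).symm (b.coord k)
    have hξ : ∀ z, Algebra.trace ℚ (K i) (ξ * z) = b.coord k z := fun z =>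
      LinearMap.BilinForm.apply_toDual_symm_apply (hB := traceForm_nondegenerate ℚ (K i))
        (f := b.coord k) z
    refine ⟨fun ψ ψ' => if ψ' = (starRingEnd ℂ).comp ψ then ψ ξ else 0, fun ψ ψ' h => ?_,
      fun x y => ?_⟩
    · have h' : ψ' = (starRingEnd ℂ).comp ψ := by
        by_contra hc
        exact h (if_neg hc)
      have := hΦ ⟨i, ψ⟩
      rw [h']
      constructor
      · intro h1 h2
        exact this.1 h2 h1
      · intro h1
        by_contra h2
        exact h1 (this.2 h2)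
    · change ((b.coord k (x * cc y) : ℚ) : ℂ) = _
      have h1 : ∀ ψ : K i →+* ℂ, (∑ ψ' : K i →+* ℂ,
          (if ψ' = (starRingEnd ℂ).comp ψ then ψ ξ else 0) * (ψ x * ψ' y))
          = ψ (ξ * (x * cc y)) := by
        intro ψ
        rw [Finset.sum_eq_single ((starRingEnd ℂ).comp ψ)]
        · rw [if_pos rfl, map_mul, map_mul]
          have := NumberField.IsCMField.complexEmbedding_complexConj (K i) ψ y
          change ψ (cc y) = _ at this
          rw [this]
          rfl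
        · intro ψ' _ h; rw [if_neg h, zero_mul]
        · intro h; exact absurd (Finset.mem_univ _) h
      refine Eq.trans ?_ (Finset.sum_congr rfl fun ψ _ => (h1 ψ).symm)
      rw [← hξ]
      have h2 := trace_eq_sum_embeddings (K := ℚ) (L := K i) ℂ (x := ξ * (x * cc y))
      rw [← Fintype.sum_equiv (RingHom.equivRatAlgHom (K i) ℂ)
        (fun f => f (ξ * (x * cc y))) (fun f => f (ξ * (x * cc y)))
        (fun f => by simp [RingHom.equivRatAlgHom_apply])] at h2
      rw [← h2]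
      rfl
  · change φ x * starRingEnd ℂ (φ y) = ∑ k, φ (b k) * ((b.coord k (x * cc y) : ℚ) : ℂ)
    have := NumberField.IsCMField.complexEmbedding_complexConj (K i) φ y
    change φ (cc y) = _ at this
    rw [← this, ← map_mul]
    conv_lhs => rw [← b.sum_repr (x * cc y)]
    rw [map_sum]
    refine Finset.sum_congr rfl fun k _ => ?_
    rw [Rat.smul_def, map_mul, map_ratCast, mul_comm]
    rfl

end divisor

end Pool.Agent.W484.AH
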