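import Mathlib
import Pool.Agent.W484.AH.Forms

/-!
# Hodge forms are combinations of product forms
-/

set_option autoImplicit false

open scoped TensorProduct
open Module

namespace Pool.Agent.W484.AH

section matching

variable {ι : Type} {K : ι → Type} [∀ i, Field (K i)]

/-- A balanced family can be divided in pairs of conjugate embeddings. -/
lemma exists_matching {Φ : Set (Emb K)} (hΦ : IsCMType Φ) {a : ℕ} (φ : Fin a → Emb K)
    (h : ∀ e, mult φ e = mult φ (bar e)) :
    ∃ (n : ℕ) (e : Fin n ⊕ Fin n ≃ Fin a), (∀ k, φ (e (Sum.inr k)) = bar (φ (e (Sum.inl k)))) ∧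
      ({t | φ t ∈ Φ} : Set (Fin a)).ncard = n ∧ a = 2 * n := by
  classical
  let A := {t : Fin a // φ t ∈ Φ}
  let B := {t : Fin a // φ t ∉ Φ}
  have hfib : ∀ c : Emb K, Nonempty ({x : A // φ x.1 = c} ≃ {y : B // bar (φ y.1) = c}) := by
    intro c
    by_cases hc : c ∈ Φ
    · have hc' : bar c ∉ Φ := fun h1 => ((hΦ c).1 h1) hc
      have e1 : {x : A // φ x.1 = c} ≃ {t : Fin a // φ t = c} :=
        { toFun := fun x => ⟨x.1.1, x.2⟩
          invFun := fun t => ⟨⟨t.1, by rw [t.2]; exact hc⟩, t.2⟩
          left_inv := fun x => rfl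
          right_inv := fun t => rfl }
      have e2 : {y : B // bar (φ y.1) = c} ≃ {t : Fin a // φ t = bar c} :=
        { toFun := fun y => ⟨y.1.1, (bar_bar (φ y.1.1)).symm.trans (congrArg bar y.2)⟩
          invFun := fun t => ⟨⟨t.1, by rw [t.2]; exact hc'⟩, by rw [t.2, bar_bar]⟩
          left_inv := fun x => rfl
          right_inv := fun t => rfl }
      have hcard : Fintype.card {t : Fin a // φ t = c} = Fintype.card {t : Fin a // φ t = bar c} := by
        rw [Fintype.card_subtype, Fintype.card_subtype]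
        exact h c
      exact ⟨e1.trans ((Fintype.equivOfCardEq hcard).trans e2.symm)⟩
    · have i1 : IsEmpty {x : A // φ x.1 = c} := ⟨fun x => hc (x.2 ▸ x.1.2)⟩
      have i2 : IsEmpty {y : B // bar (φ y.1) = c} :=
        ⟨fun y => hc (y.2 ▸ ((hΦ _).2 y.1.2))⟩
      exact ⟨Equiv.equivOfIsEmpty _ _⟩
  let E : A ≃ B := Equiv.ofFiberEquiv (f := fun x : A => φ x.1) (g := fun y : B => bar (φ y.1))
    (fun c => (hfib c).some)
  have hE : ∀ x : A, bar (φ (E x).1) = φ x.1 := fun x =>
    Equiv.ofFiberEquiv_map (fun c => (hfib c).some) x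
  let n := Fintype.card A
  let eA : Fin n ≃ A := (Fintype.equivFin A).symm
  let e : Fin n ⊕ Fin n ≃ Fin a :=
    (Equiv.sumCongr eA (eA.trans E)).trans (Equiv.sumCompl fun t => φ t ∈ Φ)
  refine ⟨n, e, fun k => ?_, ?_, ?_⟩
  · have h1 : e (Sum.inr k) = (E (eA k)).1 := rfl
    have h2 : e (Sum.inl k) = (eA k).1 := rfl
    rw [h1, h2, ← hE (eA k), bar_bar]
  · rw [Set.ncard_eq_toFinset_card']
    simp only [n, A]
    rw [Fintype.card_subtype]
    congr 1
    ext t
    simp
  · have := Fintype.card_congr e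
    rw [Fintype.card_sum, Fintype.card_fin, Fintype.card_fin] at this
    omega

end matching

section product

variable {ι : Type} {K : ι → Type} [∀ i, Field (K i)] [∀ i, NumberField (K i)]

/-- The product of bilinear forms in pairs of variables. -/
noncomputable def prodForm {a n : ℕ} {j : Fin a → ι} (e : Fin n ⊕ Fin n ≃ Fin a)
    (B : ∀ k : Fin n, K (j (e (Sum.inl k))) →ₗ[ℚ] K (j (e (Sum.inr k))) →ₗ[ℚ] ℚ) :
    MultilinearMap ℚ (fun t => K (j t)) ℚ where
  toFun x := ∏ k, B k (x (e (Sum.inl k))) (x (e (Sum.inr k)))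
  map_update_add' m i x y := by
    classical
    obtain ⟨u, rfl⟩ := e.surjective i
    rcases u with k | k
    · have h1 : ∀ v, ∀ k' ∈ Finset.univ.erase k,
          B k' (Function.update m (e (Sum.inl k)) v (e (Sum.inl k')))
            (Function.update m (e (Sum.inl k)) v (e (Sum.inr k')))
          = B k' (m (e (Sum.inl k'))) (m (e (Sum.inr k'))) := by
        intro v k' hk'
        rw [Function.update_of_ne, Function.update_of_ne]
        · intro h; simpa using e.injective h
        · intro h
          have := e.injective h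
          simp only [Sum.inl.injEq] at this
          exact (Finset.mem_erase.1 hk').1 this
      have h2 : ∀ v, Function.update m (e (Sum.inl k)) v (e (Sum.inr k)) = m (e (Sum.inr k)) := by
        intro v
        rw [Function.update_of_ne]
        intro h; simpa using e.injective h
      rw [← Finset.mul_prod_erase _ _ (Finset.mem_univ k),
        ← Finset.mul_prod_erase _ _ (Finset.mem_univ k),
        ← Finset.mul_prod_erase _ _ (Finset.mem_univ k),
        Finset.prod_congr rfl (h1 _), Finset.prod_congr rfl (h1 _), Finset.prod_congr rfl (h1 _),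
        h2, h2, h2, Function.update_self, Function.update_self, Function.update_self, map_add,
        LinearMap.add_apply, add_mul]
    · have h1 : ∀ v, ∀ k' ∈ Finset.univ.erase k,
          B k' (Function.update m (e (Sum.inr k)) v (e (Sum.inl k')))
            (Function.update m (e (Sum.inr k)) v (e (Sum.inr k')))
          = B k' (m (e (Sum.inl k'))) (m (e (Sum.inr k'))) := by
        intro v k' hk'
        rw [Function.update_of_ne, Function.update_of_ne]
        · intro h
          have := e.injective h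
          simp only [Sum.inr.injEq] at this
          exact (Finset.mem_erase.1 hk').1 this
        · intro h; simpa using e.injective h
      have h2 : ∀ v, Function.update m (e (Sum.inr k)) v (e (Sum.inl k)) = m (e (Sum.inl k)) := by
        intro v
        rw [Function.update_of_ne]
        intro h; simpa using e.injective h
      rw [← Finset.mul_prod_erase _ _ (Finset.mem_univ k),
        ← Finset.mul_prod_erase _ _ (Finset.mem_univ k),
        ← Finset.mul_prod_erase _ _ (Finset.mem_univ k),
        Finset.prod_congr rfl (h1 _), Finset.prod_congr rfl (h1 _), Finset.prod_congr rfl (h1 _),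
        h2, h2, h2, Function.update_self, Function.update_self, Function.update_self, map_add,
        add_mul]
  map_update_smul' m i q x := by
    classical
    obtain ⟨u, rfl⟩ := e.surjective i
    rcases u with k | k
    · have h1 : ∀ v, ∀ k' ∈ Finset.univ.erase k,
          B k' (Function.update m (e (Sum.inl k)) v (e (Sum.inl k')))
            (Function.update m (e (Sum.inl k)) v (e (Sum.inr k')))
          = B k' (m (e (Sum.inl k'))) (m (e (Sum.inr k'))) := by
        intro v k' hk'
        rw [Function.update_of_ne, Function.update_of_ne]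
        · intro h; simpa using e.injective h
        · intro h
          have := e.injective h
          simp only [Sum.inl.injEq] at this
          exact (Finset.mem_erase.1 hk').1 this
      have h2 : ∀ v, Function.update m (e (Sum.inl k)) v (e (Sum.inr k)) = m (e (Sum.inr k)) := by
        intro v
        rw [Function.update_of_ne]
        intro h; simpa using e.injective h
      rw [← Finset.mul_prod_erase _ _ (Finset.mem_univ k),
        ← Finset.mul_prod_erase _ _ (Finset.mem_univ k),
        Finset.prod_congr rfl (h1 _), Finset.prod_congr rfl (h1 _),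
        h2, h2, Function.update_self, Function.update_self, map_smul,
        LinearMap.smul_apply, smul_mul_assoc]
    · have h1 : ∀ v, ∀ k' ∈ Finset.univ.erase k,
          B k' (Function.update m (e (Sum.inr k)) v (e (Sum.inl k')))
            (Function.update m (e (Sum.inr k)) v (e (Sum.inr k')))
          = B k' (m (e (Sum.inl k'))) (m (e (Sum.inr k'))) := by
        intro v k' hk'
        rw [Function.update_of_ne, Function.update_of_ne]
        · intro h
          have := e.injective h
          simp only [Sum.inr.injEq] at this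
          exact (Finset.mem_erase.1 hk').1 this
        · intro h; simpa using e.injective h
      have h2 : ∀ v, Function.update m (e (Sum.inr k)) v (e (Sum.inl k)) = m (e (Sum.inl k)) := by
        intro v
        rw [Function.update_of_ne]
        intro h; simpa using e.injective h
      rw [← Finset.mul_prod_erase _ _ (Finset.mem_univ k),
        ← Finset.mul_prod_erase _ _ (Finset.mem_univ k),
        Finset.prod_congr rfl (h1 _), Finset.prod_congr rfl (h1 _),
        h2, h2, Function.update_self, Function.update_self, map_smul, smul_mul_assoc]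

lemma prodForm_apply {a n : ℕ} {j : Fin a → ι} (e : Fin n ⊕ Fin n ≃ Fin a)
    (B : ∀ k : Fin n, K (j (e (Sum.inl k))) →ₗ[ℚ] K (j (e (Sum.inr k))) →ₗ[ℚ] ℚ)
    (x : ∀ t, K (j t)) :
    prodForm e B x = ∏ k, B k (x (e (Sum.inl k))) (x (e (Sum.inr k))) := rfl

/-- The scalar product forms of a given length. -/
def scalarForms (Φ : Set (Emb K)) {a : ℕ} (j : Fin a → ι) : Set ((∀ t, K (j t)) → ℚ) :=
  {D | ∃ (n : ℕ) (e : Fin n ⊕ Fin n ≃ Fin a)
    (B : ∀ k : Fin n, K (j (e (Sum.inl k))) →ₗ[ℚ] K (j (e (Sum.inr k))) →ₗ[ℚ] ℚ),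
    (∀ k, IsDivisorForm Φ (B k)) ∧ D = fun x => prodForm e B x}

/-- Descent of coefficients. -/
lemma descent {X : Type} (𝒟 : Set (X → ℚ)) (q : X → ℚ)
    (h : (fun x => ((q x : ℚ) : ℂ)) ∈ Submodule.span ℂ ((fun D : X → ℚ => fun x => ((D x : ℚ) : ℂ)) '' 𝒟)) :
    q ∈ Submodule.span ℚ 𝒟 := by
  obtain ⟨lam, hlam⟩ : ∃ lam : ℂ →ₗ[ℚ] ℚ, lam 1 = 1 := by
    obtain ⟨p, hp⟩ := LinearMap.exists_leftInverse_of_injective
      (LinearMap.toSpanSingleton ℚ ℂ 1) (by
        exact LinearMap.ker_toSpanSingleton ℚ (one_ne_zero : (1 : ℂ) ≠ 0))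
    refine ⟨p, ?_⟩
    have := LinearMap.congr_fun hp 1
    simpa using this
  have hq : ∀ r : ℚ, ∀ z : ℂ, lam (z * (r : ℂ)) = lam z * r := by
    intro r z
    have : z * (r : ℂ) = r • z := by rw [Rat.smul_def, mul_comm]
    rw [this, map_smul, smul_eq_mul, mul_comm]
  have key : ∀ g ∈ Submodule.span ℂ ((fun D : X → ℚ => fun x => ((D x : ℚ) : ℂ)) '' 𝒟),
      ∀ z : ℂ, (fun x => lam (z * g x)) ∈ Submodule.span ℚ 𝒟 := by
    intro g hg
    induction hg using Submodule.span_induction with
    | mem g hg =>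
      obtain ⟨D, hD, rfl⟩ := hg
      intro z
      have : (fun x => lam (z * ((D x : ℚ) : ℂ))) = lam z • D := by
        funext x
        simp only [Pi.smul_apply, smul_eq_mul]
        exact hq _ _
      rw [this]
      exact Submodule.smul_mem _ _ (Submodule.subset_span hD)
    | zero =>
      intro z
      have : (fun x => lam (z * (0 : X → ℂ) x)) = 0 := by
        funext x
        simp
      rw [this]
      exact Submodule.zero_mem _
    | add g g' _ _ hg hg' =>
      intro z
      have : (fun x => lam (z * (g + g') x)) = (fun x => lam (z * g x)) + fun x => lam (z * g' x) := by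
        funext x
        simp [mul_add]
      rw [this]
      exact Submodule.add_mem _ (hg z) (hg' z)
    | smul w g _ hg =>
      intro z
      have : (fun x => lam (z * (w • g) x)) = fun x => lam ((z * w) * g x) := by
        funext x
        simp [mul_assoc]
      rw [this]
      exact hg _
  have h1 := key _ h 1
  have : (fun x => lam (1 * ((q x : ℚ) : ℂ))) = q := by
    funext x
    rw [hq, hlam, one_mul]
  rwa [this] at h1

variable [∀ i, NumberField.IsCMField (K i)]

/-- Balanced characters are complex combinations of scalar product forms. -/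
lemma chi_mem {Φ : Set (Emb K)} (hΦ : IsCMType Φ) {a : ℕ} {j : Fin a → ι}
    (φ : ∀ t, K (j t) →+* ℂ)
    (h : ∀ e, mult (fun t => (⟨j t, φ t⟩ : Emb K)) e
      = mult (fun t => (⟨j t, φ t⟩ : Emb K)) (bar e)) :
    (fun x : (∀ t, K (j t)) => ∏ t, φ t (x t)) ∈
      Submodule.span ℂ ((fun D : (∀ t, K (j t)) → ℚ => fun x => ((D x : ℚ) : ℂ)) ''
        scalarForms Φ j) := by
  classical
  obtain ⟨n, e, he, -, -⟩ := exists_matching hΦ _ h
  have hd := fun k : Fin n => divisor_span hΦ (⟨j (e (Sum.inl k)), φ (e (Sum.inl k))⟩ : Emb K)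
    (⟨j (e (Sum.inr k)), φ (e (Sum.inr k))⟩ : Emb K) (he k)
  choose m z B hB hz using hd
  have hprod : (fun x : (∀ t, K (j t)) => ∏ t, φ t (x t)) =
      ∑ L : (∀ k : Fin n, Fin (m k)), (∏ k, z k (L k)) •
        (fun x : (∀ t, K (j t)) => ((prodForm e (fun k => B k (L k)) x : ℚ) : ℂ)) := by
    funext x
    rw [Finset.sum_apply]
    have h1 : ∏ t, φ t (x t) = ∏ k : Fin n, ((φ (e (Sum.inl k)) (x (e (Sum.inl k)))) *
        (φ (e (Sum.inr k)) (x (e (Sum.inr k))))) := by
      rw [← e.prod_comp, Fintype.prod_sum_type, Finset.prod_mul_distrib]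
    rw [h1, Finset.prod_congr rfl fun k _ => hz k (x (e (Sum.inl k))) (x (e (Sum.inr k))),
      Finset.prod_univ_sum, Fintype.piFinset_univ]
    refine Finset.sum_congr rfl fun L _ => ?_
    rw [Finset.prod_mul_distrib, Pi.smul_apply, smul_eq_mul, prodForm_apply, Rat.cast_prod]
  rw [hprod]
  refine Submodule.sum_mem _ fun L _ => Submodule.smul_mem _ _ (Submodule.subset_span ?_)
  exact ⟨_, ⟨n, e, fun k => B k (L k), fun k => hB k (L k), rfl⟩, rfl⟩

end product

section final

variable {ι : Type} {K : ι → Type} [∀ i, Field (K i)] [∀ i, NumberField (K i)]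
  [∀ i, NumberField.IsCMField (K i)] {H : Type} [AddCommGroup H] [Module ℚ H]

/-- The rational classes as a subspace. -/
def hodgeSub (Hd : ℤ → Submodule ℂ (ℂ ⊗[ℚ] H)) (p : ℤ) : Submodule ℚ H where
  carrier := hodgeClasses Hd p
  add_mem' {x y} hx hy := by
    change (1 : ℂ) ⊗ₜ[ℚ] (x + y) ∈ Hd p
    rw [TensorProduct.tmul_add]
    exact (Hd p).add_mem hx hy
  zero_mem' := by
    change (1 : ℂ) ⊗ₜ[ℚ] (0 : H) ∈ Hd p
    rw [TensorProduct.tmul_zero]
    exact (Hd p).zero_mem
  smul_mem' q x hx := by
    change (1 : ℂ) ⊗ₜ[ℚ] (q • x) ∈ Hd p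
    have : (1 : ℂ) ⊗ₜ[ℚ] (q • x) = (q : ℂ) • ((1 : ℂ) ⊗ₜ[ℚ] x) := by
      rw [TensorProduct.tmul_smul, TensorProduct.smul_tmul', TensorProduct.smul_tmul',
        Rat.smul_def, smul_eq_mul]
    rw [this]
    exact (Hd p).smul_mem _ hx

/-- Forgetting that a map is multilinear. -/
def coeL {a : ℕ} {j : Fin a → ι} (H : Type) [AddCommGroup H] [Module ℚ H] :
    MultilinearMap ℚ (fun t => K (j t)) H →ₗ[ℚ] ((∀ t, K (j t)) → H) where
  toFun f := f
  map_add' _ _ := rfl
  map_smul' _ _ := rfl

/-- If all the components of a Hodge form are balanced, it is a combination of product forms. -/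
theorem span_of_balanced {Φ : Set (Emb K)} (hΦ : IsCMType Φ) [Module.Finite ℚ H]
    {Hd : ℤ → Submodule ℂ (ℂ ⊗[ℚ] H)} {good : Set H} (hgood : ∀ p, hodgeClasses Hd p ⊆ good)
    {c : ℤ} {a : ℕ} {j : Fin a → ι} {f : MultilinearMap ℚ (fun t => K (j t)) H}
    {X : (∀ t, K (j t) →+* ℂ) → ℂ ⊗[ℚ] H}
    (hX1 : ∀ φ, X φ ∈ Hd (c + ({t | (⟨j t, φ t⟩ : Emb K) ∈ Φ} : Set (Fin a)).ncard))
    (hX : ∀ x : (∀ t, K (j t)), (1 : ℂ) ⊗ₜ[ℚ] f x =
      ∑ φ : (∀ t, K (j t) →+* ℂ), (∏ t, φ t (x t)) • X φ)
    (hbal : ∀ φ, X φ ≠ 0 → ∀ e, mult (fun t => (⟨j t, φ t⟩ : Emb K)) e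
      = mult (fun t => (⟨j t, φ t⟩ : Emb K)) (bar e)) :
    f ∈ Submodule.span ℚ {f' | IsProductForm Φ Hd good c j f'} := by
  classical
  -- the values are Hodge classes
  let m : ℤ := c + (a / 2 : ℕ)
  have hXm : ∀ φ, X φ ∈ Hd m := by
    intro φ
    by_cases h0 : X φ = 0
    · rw [h0]; exact Submodule.zero_mem _
    · obtain ⟨n, e, -, h1, h2⟩ := exists_matching hΦ _ (hbal φ h0)
      have h3 := hX1 φ
      rw [h1] at h3
      have : m = c + n := by simp only [m]; omega
      rwa [this]
  have hval : ∀ x, f x ∈ hodgeSub Hd m := by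
    intro x
    change (1 : ℂ) ⊗ₜ[ℚ] f x ∈ Hd m
    rw [hX x]
    exact Submodule.sum_mem _ fun φ _ => Submodule.smul_mem _ _ (hXm φ)
  let b := Module.finBasis ℚ (hodgeSub Hd m)
  have hext : ∀ l, ∃ ℓ : H →ₗ[ℚ] ℚ, ℓ.comp (hodgeSub Hd m).subtype = b.coord l := fun l =>
    LinearMap.exists_extend (b.coord l)
  choose ell hell using hext
  have hfx : ∀ x, f x = ∑ l, ell l (f x) • (b l : H) := by
    intro x
    have h1 := b.sum_repr (⟨f x, hval x⟩ : hodgeSub Hd m)
    have h2 := congrArg (hodgeSub Hd m).subtype h1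
    rw [map_sum] at h2
    simp only [map_smul, Submodule.coe_subtype] at h2
    rw [← h2]
    refine Finset.sum_congr rfl fun l _ => ?_
    congr 1
    rw [h2]
    have h3 := LinearMap.congr_fun (hell l) (⟨f x, hval x⟩ : hodgeSub Hd m)
    exact h3.symm
  have hmem : ∀ l, (fun x => ell l (f x)) ∈ Submodule.span ℚ (scalarForms Φ j) := by
    intro l
    apply descent
    let Lam : (ℂ ⊗[ℚ] H) →ₗ[ℂ] ℂ :=
      (TensorProduct.AlgebraTensorModule.rid ℚ ℂ ℂ).toLinearMap ∘ₗ LinearMap.baseChange ℂ (ell l)
    have hLam : ∀ h : H, Lam ((1 : ℂ) ⊗ₜ[ℚ] h) = ((ell l h : ℚ) : ℂ) := by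
      intro h
      simp [Lam, Rat.smul_def]
    have heq : (fun x => ((ell l (f x) : ℚ) : ℂ)) =
        ∑ φ : (∀ t, K (j t) →+* ℂ), Lam (X φ) • (fun x : (∀ t, K (j t)) => ∏ t, φ t (x t)) := by
      funext x
      rw [← hLam, hX x, map_sum, Finset.sum_apply]
      refine Finset.sum_congr rfl fun φ _ => ?_
      rw [map_smul, Pi.smul_apply, smul_eq_mul, smul_eq_mul, mul_comm]
    rw [heq]
    refine Submodule.sum_mem _ fun φ _ => ?_
    by_cases h0 : X φ = 0
    · rw [h0, map_zero, zero_smul]
      exact Submodule.zero_mem _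
    · exact Submodule.smul_mem _ _ (chi_mem hΦ φ (hbal φ h0))
  -- assemble
  have hcoe : Function.Injective (coeL (K := K) (j := j) H) := fun f g h =>
    MultilinearMap.ext fun x => congrFun h x
  have himg : coeL H f ∈ Submodule.map (coeL H)
      (Submodule.span ℚ {f' | IsProductForm Φ Hd good c j f'}) := by
    have hf : coeL H f = ∑ l, fun x => ell l (f x) • (b l : H) := by
      funext x
      rw [Finset.sum_apply]
      exact hfx x
    rw [hf]
    refine Submodule.sum_mem _ fun l _ => ?_
    let T : ((∀ t, K (j t)) → ℚ) →ₗ[ℚ] ((∀ t, K (j t)) → H) :=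
      { toFun := fun g x => g x • (b l : H)
        map_add' := fun g g' => by
          funext x
          simp [add_smul]
        map_smul' := fun q g => by
          funext x
          simp [mul_smul] }
    have hT : ∀ g ∈ Submodule.span ℚ (scalarForms Φ j), T g ∈ Submodule.map (coeL H)
        (Submodule.span ℚ {f' | IsProductForm Φ Hd good c j f'}) := by
      intro g hg
      induction hg using Submodule.span_induction with
      | mem g hg =>
        obtain ⟨n, e, B, hB, rfl⟩ := hg
        refine ⟨(prodForm e B).smulRight (b l : H), Submodule.subset_span ?_, rfl⟩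
        have hn : m = c + n := by
          have := Fintype.card_congr e
          rw [Fintype.card_sum, Fintype.card_fin, Fintype.card_fin] at this
          simp only [m]
          omega
        refine ⟨n, e, B, (b l : H), hB, ?_, hgood _ (b l).2, fun x => rfl⟩
        rw [← hn]
        exact (b l).2
      | zero => rw [map_zero]; exact Submodule.zero_mem _
      | add g g' _ _ hg hg' => rw [map_add]; exact Submodule.add_mem _ hg hg'
      | smul q g _ hg => rw [map_smul]; exact Submodule.smul_mem _ _ hg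
    exact hT _ (hmem l)
  obtain ⟨f', hf', he⟩ := himg
  rw [← hcoe he]
  exact hf'

/-- **Main theorem.** -/
theorem main {Φ : Set (Emb K)} (hΦ : IsCMType Φ) (hS : SignChanges K)
    {β : Type} [Fintype β] (H : β → Type) [∀ b, AddCommGroup (H b)] [∀ b, Module ℚ (H b)]
    [∀ b, Module.Finite ℚ (H b)] (Hd : ∀ b, ℤ → Submodule ℂ (ℂ ⊗[ℚ] H b))
    (hHd : ∀ b, iSupIndep (Hd b)) :
    ∃ S : Finset ι, S.card ≤ ∑ b, finrank ℚ (H b) ∧
      ∀ (good : ∀ b, Set (H b)), (∀ b p, hodgeClasses (Hd b) p ⊆ good b) →
      ∀ (b : β) (c : ℤ) (a : ℕ) (j : Fin a → ι), (∀ t, j t ∉ S) →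
      ∀ f : MultilinearMap ℚ (fun t => K (j t)) (H b), IsHodgeForm Φ (Hd b) c j f →
        f ∈ Submodule.span ℚ {f' | IsProductForm Φ (Hd b) (good b) c j f'} := by
  classical
  have hfin : ∀ b, ∃ S : Finset ι, S.card ≤ finrank ℚ (H b) ∧ ∀ i, i ∈ bad Φ (Hd b) → i ∈ S := by
    intro b
    have hB : (bad Φ (Hd b)).Finite := by
      by_contra hinf
      obtain ⟨S, hS1, hS2⟩ := Set.Infinite.exists_subset_card_eq hinf (finrank ℚ (H b) + 1)
      have := bad_small hΦ hS (hHd b) S (fun i hi => hS1 hi)
      omega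
    refine ⟨hB.toFinset, ?_, fun i hi => by simpa using hi⟩
    exact bad_small hΦ hS (hHd b) _ (fun i hi => by simpa using hi)
  choose S hS1 hS2 using hfin
  refine ⟨Finset.univ.biUnion S, ?_, ?_⟩
  · exact Finset.card_biUnion_le.trans (Finset.sum_le_sum fun b _ => hS1 b)
  · intro good hgood b c a j hj f hf
    obtain ⟨X, hX1, hX⟩ := hf
    refine span_of_balanced hΦ (hgood b) hX1 hX fun φ hne e => ?_
    by_contra hmul
    have hE := eff_of_ne hX1 hX hne
    have hbad : e.1 ∈ bad Φ (Hd b) := ⟨a, _, c, e, hE, rfl, hmul⟩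
    have hex : ∃ t, j t = e.1 := by
      by_contra hc
      push Not at hc
      apply hmul
      have h1 : ∀ e' : Emb K, e'.1 = e.1 →
          mult (fun t => (⟨j t, φ t⟩ : Emb K)) e' = 0 := by
        intro e' he'
        rw [mult, Finset.card_eq_zero, Finset.filter_eq_empty_iff]
        intro t _ h
        exact hc t (by rw [← he', ← h])
      rw [h1 e rfl, h1 (bar e) rfl]
    obtain ⟨t, ht⟩ := hex
    apply hj t
    rw [Finset.mem_biUnion]
    exact ⟨b, Finset.mem_univ _, ht ▸ hS2 b _ hbad⟩

end final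

end Pool.Agent.W484.AH
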