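import Mathlib
import Pool.Agent.W484.AH.Defs

/-!
# Hodge classes on products with abelian varieties with complex multiplication: the statement

The definitions which occur in the statements of the theorems.
-/

set_option autoImplicit false

open scoped TensorProduct

namespace Pool.Agent.W484.AH

/-- A family of independent complex subspaces `part p` of `ℂ ⊗ H`; in the applications `part p` is
the subspace of all classes of type `(p, *)` of a Hodge structure with underlying rational vector
space `H`. -/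
structure HodgeData (H : Type) [AddCommGroup H] [Module ℚ H] where
  /-- The subspace of type `(p, *)`. -/
  part : ℤ → Submodule ℂ (ℂ ⊗[ℚ] H)
  /-- The subspaces are independent. -/
  independent : iSupIndep part

/-- `x` is of type `(p, *)`. -/
def HodgeData.Mem {H : Type} [AddCommGroup H] [Module ℚ H] (D : HodgeData H) (p : ℤ)
    (x : ℂ ⊗[ℚ] H) : Prop := x ∈ D.part p

/-- The rational class `h` is of type `(p, *)`: for a Hodge structure of weight `2 p` these are the
Hodge classes. -/
def HodgeData.IsClass {H : Type} [AddCommGroup H] [Module ℚ H] (D : HodgeData H) (p : ℤ) (h : H) :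
    Prop := D.Mem p ((1 : ℂ) ⊗ₜ[ℚ] h)

variable {ι : Type} {K : ι → Type} [∀ i, Field (K i)]

/-- The product of the values of embeddings. -/
noncomputable def embProd {a : ℕ} {j : Fin a → ι} (φ : ∀ t, K (j t) →+* ℂ) (x : ∀ t, K (j t)) : ℂ :=
  ∏ t, φ t (x t)

/-- The number of the embeddings `φ t` which are in `Φ`. -/
noncomputable def countIn (Φ : Set (Emb K)) {a : ℕ} {j : Fin a → ι} (φ : ∀ t, K (j t) →+* ℂ) : ℕ :=
  ({t | (⟨j t, φ t⟩ : Emb K) ∈ Φ} : Set (Fin a)).ncard

variable [∀ i, NumberField (K i)]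

/-- Rational multilinear maps from `K (j 1) × ⋯ × K (j a)` to `H`. -/
abbrev Form (K : ι → Type) [∀ i, Field (K i)] [∀ i, NumberField (K i)] {a : ℕ} (j : Fin a → ι)
    (H : Type) [AddCommGroup H] [Module ℚ H] : Type :=
  MultilinearMap ℚ (fun t => K (j t)) H

/-- Rational bilinear forms on `K i × K i'`. -/
abbrev BForm (K : ι → Type) [∀ i, Field (K i)] [∀ i, NumberField (K i)] (i i' : ι) : Type :=
  K i →ₗ[ℚ] K i' →ₗ[ℚ] ℚ

/-- The value of a bilinear form. -/
def BForm.val {i i' : ι} (B : BForm K i i') (x : K i) (y : K i') : ℚ := B x y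

/-- The multilinear map with the components `X φ`. -/
noncomputable def expand {H : Type} [AddCommGroup H] [Module ℚ H] {a : ℕ} {j : Fin a → ι}
    (X : (∀ t, K (j t) →+* ℂ) → ℂ ⊗[ℚ] H) (x : ∀ t, K (j t)) : ℂ ⊗[ℚ] H :=
  ∑ φ : (∀ t, K (j t) →+* ℂ), embProd φ x • X φ

/-- The bilinear map with the components `β φ ψ`. -/
noncomputable def expandTwo {i i' : ι} (β : (K i →+* ℂ) → (K i' →+* ℂ) → ℂ) (x : K i) (y : K i') :
    ℂ := ∑ φ, ∑ ψ, β φ ψ * (φ x * ψ y)

/-- A multilinear map from `K (j 1) × ⋯ × K (j a)` to `H` is a *Hodge form* of twist `c` if its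
complexification maps the tensor product of the eigenspaces of the embeddings `φ 1, …, φ a` to the
subspace of type `c + n`, where `n` is the number of the indices `t` such that `φ t` is in `Φ`. So
Hodge forms are the morphisms of Hodge structures from `H¹ (A (j 1)) ⊗ ⋯ ⊗ H¹ (A (j a))` to a Tate
twist of `H`. -/
def HodgeData.IsForm (Φ : Set (Emb K)) {H : Type} [AddCommGroup H] [Module ℚ H] (D : HodgeData H)
    (c : ℤ) {a : ℕ} (j : Fin a → ι) (f : Form K j H) : Prop :=
  ∃ X : (∀ t, K (j t) →+* ℂ) → ℂ ⊗[ℚ] H,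
    (∀ φ, D.Mem (c + countIn Φ φ) (X φ)) ∧ ∀ x, (1 : ℂ) ⊗ₜ[ℚ] f x = expand X x

/-- A bilinear form on `K i × K i'` is a *divisor form* if it is a Hodge class of type `(1, 1)` in
`H¹ (A i) ⊗ H¹ (A i')` (up to a twist): the eigenspaces of two embeddings pair to zero if both
embeddings are in `Φ` or both are not in `Φ`. By the theorem of Lefschetz these forms are the classes
of divisors. -/
def IsDivisor (Φ : Set (Emb K)) {i i' : ι} (B : BForm K i i') : Prop :=
  ∃ β : (K i →+* ℂ) → (K i' →+* ℂ) → ℂ,
    (∀ φ ψ, β φ ψ ≠ 0 → ((⟨i, φ⟩ : Emb K) ∈ Φ ↔ (⟨i', ψ⟩ : Emb K) ∉ Φ)) ∧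
    ∀ x y, ((B.val x y : ℚ) : ℂ) = expandTwo β x y

/-- The `2 n` variables are divided in pairs; the product of bilinear forms of the pairs. -/
def pairProd {a n : ℕ} {j : Fin a → ι} (e : Fin n ⊕ Fin n ≃ Fin a)
    (B : ∀ k : Fin n, BForm K (j (e (Sum.inl k))) (j (e (Sum.inr k)))) (x : ∀ t, K (j t)) : ℚ :=
  ∏ k, (B k).val (x (e (Sum.inl k))) (x (e (Sum.inr k)))

/-- A multilinear map from `K (j 1) × ⋯ × K (j a)` to `H` is a *product form* if `a = 2 n`, the `a`
variables are divided in `n` pairs and `f` is the product of divisor forms, one for each pair, and a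
Hodge class `h` of `H` which is in `good`. -/
def HodgeData.IsProduct (Φ : Set (Emb K)) {H : Type} [AddCommGroup H] [Module ℚ H]
    (D : HodgeData H) (good : Set H) (c : ℤ) {a : ℕ} (j : Fin a → ι) (f : Form K j H) : Prop :=
  ∃ (n : ℕ) (e : Fin n ⊕ Fin n ≃ Fin a)
    (B : ∀ k : Fin n, BForm K (j (e (Sum.inl k))) (j (e (Sum.inr k)))) (h : H),
    (∀ k, IsDivisor Φ (B k)) ∧ D.IsClass (c + n) h ∧ h ∈ good ∧
    ∀ x, f x = pairProd e B x • h

/-- `f` is a rational linear combination of the members of `P`. -/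
def InSpan {H : Type} [AddCommGroup H] [Module ℚ H] {a : ℕ} {j : Fin a → ι}
    (P : Set (Form K j H)) (f : Form K j H) : Prop := f ∈ Submodule.span ℚ P

/-- All Hodge forms on products of the `K i`, `i` not in `S`, are rational linear combinations of
product forms, where the Hodge classes of `H` which occur are in `good`, for any set `good`
containing all Hodge classes of `H` (for instance all absolute Hodge classes or all algebraic
classes, if all Hodge classes of `H` are absolute Hodge or algebraic). -/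
def HodgeData.FormsAreProducts (Φ : Set (Emb K)) {H : Type} [AddCommGroup H] [Module ℚ H]
    (D : HodgeData H) (S : Finset ι) : Prop :=
  ∀ good : Set H, (∀ p h, D.IsClass p h → h ∈ good) →
    ∀ (c : ℤ) (a : ℕ) (j : Fin a → ι), (∀ t, j t ∉ S) →
      ∀ f : Form K j H, D.IsForm Φ c j f → InSpan {f' | D.IsProduct Φ good c j f'} f

end Pool.Agent.W484.AH
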