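import Mathlib
import Pool.Agent.W484.AH.Main
import Pool.Agent.W484.AH.Stm

/-!
# The main theorem in terms of the definitions of the statement
-/

set_option autoImplicit false

open scoped TensorProduct
open Module

namespace Pool.Agent.W484.AH

variable {ι : Type} {K : ι → Type} [∀ i, Field (K i)] [∀ i, NumberField (K i)]

lemma isClass_iff {H : Type} [AddCommGroup H] [Module ℚ H] (D : HodgeData H) (p : ℤ) (h : H) :
    D.IsClass p h ↔ h ∈ hodgeClasses D.part p := Iff.rfl

lemma isForm_iff (Φ : Set (Emb K)) {H : Type} [AddCommGroup H] [Module ℚ H] (D : HodgeData H)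
    (c : ℤ) {a : ℕ} (j : Fin a → ι) (f : Form K j H) :
    D.IsForm Φ c j f ↔ IsHodgeForm Φ D.part c j f := Iff.rfl

lemma isDivisor_iff (Φ : Set (Emb K)) {i i' : ι} (B : BForm K i i') :
    IsDivisor Φ B ↔ IsDivisorForm Φ B := Iff.rfl

lemma isProduct_iff (Φ : Set (Emb K)) {H : Type} [AddCommGroup H] [Module ℚ H]
    (D : HodgeData H) (good : Set H) (c : ℤ) {a : ℕ} (j : Fin a → ι) (f : Form K j H) :
    D.IsProduct Φ good c j f ↔ IsProductForm Φ D.part good c j f := Iff.rfl

variable [∀ i, NumberField.IsCMField (K i)]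

/-- **Main theorem**, with the definitions of the statement. -/
theorem main' {Φ : Set (Emb K)} (hΦ : IsCMType Φ) (hS : SignChanges K)
    {β : Type} [Fintype β] (H : β → Type) [∀ b, AddCommGroup (H b)] [∀ b, Module ℚ (H b)]
    [∀ b, Module.Finite ℚ (H b)] (D : ∀ b, HodgeData (H b)) :
    ∃ S : Finset ι, S.card ≤ ∑ b, finrank ℚ (H b) ∧ ∀ b, (D b).FormsAreProducts Φ S := by
  classical
  have hfin : ∀ b, ∃ S : Finset ι, S.card ≤ finrank ℚ (H b) ∧ (D b).FormsAreProducts Φ S := by
    intro b
    obtain ⟨S, h1, h2⟩ := main hΦ hS (fun _ : Unit => H b) (fun _ => (D b).part)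
      (fun _ => (D b).independent)
    refine ⟨S, by simpa using h1, fun good hgood c a j hj f hf => ?_⟩
    exact h2 (fun _ => good) (fun _ p h hh => hgood p h hh) () c a j hj f hf
  choose S hS1 hS2 using hfin
  refine ⟨Finset.univ.biUnion S, ?_, ?_⟩
  · exact Finset.card_biUnion_le.trans (Finset.sum_le_sum fun b _ => hS1 b)
  · intro b good hgood c a j hj f hf
    exact hS2 b good hgood c a j (fun t ht => hj t (Finset.mem_biUnion.2 ⟨b, Finset.mem_univ _, ht⟩))
      f hf

end Pool.Agent.W484.AH
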