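import Mathlib
import Pool.Agent.W484.AH.Stm

/-!
# Morphisms of Hodge structures between tensor products with cohomology groups of abelian varieties
with complex multiplication: the statement
-/

set_option autoImplicit false

open scoped TensorProduct

namespace Pool.Agent.W484.AH

/-- The subspaces of type `(p, *)` together generate the whole space. -/
def HodgeData.Exhausts {H : Type} [AddCommGroup H] [Module ℚ H] (D : HodgeData H) : Prop :=
  ⨆ p, D.part p = ⊤

/-- Complex linear maps from `ℂ ⊗ H` to `ℂ ⊗ H'`. -/
abbrev CMap (H H' : Type) [AddCommGroup H] [Module ℚ H] [AddCommGroup H'] [Module ℚ H'] : Type :=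
  (ℂ ⊗[ℚ] H) →ₗ[ℂ] (ℂ ⊗[ℚ] H')

/-- Rational linear maps from `H` to `H'`. -/
abbrev QMap (H H' : Type) [AddCommGroup H] [Module ℚ H] [AddCommGroup H'] [Module ℚ H'] : Type :=
  H →ₗ[ℚ] H'

/-- The complexification of a rational linear map. -/
noncomputable def complexify {H H' : Type} [AddCommGroup H] [Module ℚ H] [AddCommGroup H']
    [Module ℚ H'] (u : QMap H H') : CMap H H' := u.baseChange ℂ

/-- `T` maps the subspace of type `(q, *)` to the subspace of type `(q + p, *)` for all `q`. -/
def HasDegree {H H' : Type} [AddCommGroup H] [Module ℚ H] [AddCommGroup H'] [Module ℚ H']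
    (D : HodgeData H) (D' : HodgeData H') (p : ℤ) (T : CMap H H') : Prop :=
  ∀ q x, D.Mem q x → D'.Mem (q + p) (T x)

/-- `u` is a *morphism of Hodge structures* from `H` to the Tate twist `H' (p)`. -/
def IsMorphism {H H' : Type} [AddCommGroup H] [Module ℚ H] [AddCommGroup H'] [Module ℚ H']
    (D : HodgeData H) (D' : HodgeData H') (p : ℤ) (u : QMap H H') : Prop :=
  HasDegree D D' p (complexify u)

variable {ι : Type} {K : ι → Type} [∀ i, Field (K i)] [∀ i, NumberField (K i)]

/-- The multilinear map with the components `T φ`. -/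
noncomputable def expandMap {H H' : Type} [AddCommGroup H] [Module ℚ H] [AddCommGroup H']
    [Module ℚ H'] {a : ℕ} {j : Fin a → ι} (T : (∀ t, K (j t) →+* ℂ) → CMap H H')
    (x : ∀ t, K (j t)) : CMap H H' :=
  ∑ φ : (∀ t, K (j t) →+* ℂ), embProd φ x • T φ

/-- A multilinear map `f` from `K (j 1) × ⋯ × K (j a)` to the rational linear maps from `H` to `H'`
is the same as a rational linear map from `H¹ (A (j 1)) ⊗ ⋯ ⊗ H¹ (A (j a)) ⊗ H` to `H'`. It is a
morphism of Hodge structures to the Tate twist `H' (c)` if its complexification maps the tensor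
product of the eigenspaces of the embeddings `φ 1, …, φ a` and the subspace of type `(q, *)` of `H`
to the subspace of type `(q + c + n, *)` of `H'`, where `n` is the number of the indices `t` such
that `φ t` is in `Φ`. -/
def IsTensorMorphism (Φ : Set (Emb K)) {H H' : Type} [AddCommGroup H] [Module ℚ H]
    [AddCommGroup H'] [Module ℚ H'] (D : HodgeData H) (D' : HodgeData H') (c : ℤ) {a : ℕ}
    (j : Fin a → ι) (f : Form K j (QMap H H')) : Prop :=
  ∃ T : (∀ t, K (j t) →+* ℂ) → CMap H H',
    (∀ φ, HasDegree D D' (c + countIn Φ φ) (T φ)) ∧ ∀ x, complexify (f x) = expandMap T x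

/-- `f` is a *product*: `a = 2 n`, the `a` variables are divided in `n` pairs and `f` is the product
of divisor forms, one for each pair, and a morphism `u` of Hodge structures from `H` to a Tate twist
of `H'` which is in `good`. -/
def IsProductMorphism (Φ : Set (Emb K)) {H H' : Type} [AddCommGroup H] [Module ℚ H]
    [AddCommGroup H'] [Module ℚ H'] (D : HodgeData H) (D' : HodgeData H') (good : Set (QMap H H'))
    (c : ℤ) {a : ℕ} (j : Fin a → ι) (f : Form K j (QMap H H')) : Prop :=
  ∃ (n : ℕ) (e : Fin n ⊕ Fin n ≃ Fin a)
    (B : ∀ k : Fin n, BForm K (j (e (Sum.inl k))) (j (e (Sum.inr k)))) (u : QMap H H'),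
    (∀ k, IsDivisor Φ (B k)) ∧ IsMorphism D D' (c + n) u ∧ u ∈ good ∧
    ∀ x, f x = pairProd e B x • u

/-- All morphisms of Hodge structures from the tensor products of `H` and the `H¹ (A i)`, `i` not in
`S`, to Tate twists of `H'` are rational linear combinations of products, where the morphisms from
`H` to twists of `H'` which occur are in `good`, for any set `good` containing all morphisms of Hodge
structures from `H` to twists of `H'` (for instance the set of the realizations of morphisms of
motives for absolute Hodge cycles, if all morphisms of Hodge structures are of this form). -/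
def MorphismsAreProducts (Φ : Set (Emb K)) {H H' : Type} [AddCommGroup H] [Module ℚ H]
    [AddCommGroup H'] [Module ℚ H'] (D : HodgeData H) (D' : HodgeData H') (S : Finset ι) : Prop :=
  ∀ good : Set (QMap H H'), (∀ p u, IsMorphism D D' p u → u ∈ good) →
    ∀ (c : ℤ) (a : ℕ) (j : Fin a → ι), (∀ t, j t ∉ S) →
      ∀ f : Form K j (QMap H H'), IsTensorMorphism Φ D D' c j f →
        InSpan {f' | IsProductMorphism Φ D D' good c j f'} f

end Pool.Agent.W484.AH
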