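import Mathlib
import Pool.Agent.W484.AH.Bridge
import Pool.Agent.W484.AH.StmHom

/-!
# Morphisms of Hodge structures between tensor products with cohomology groups of abelian varieties
with complex multiplication
-/

set_option autoImplicit false

open scoped TensorProduct
open Module

namespace Pool.Agent.W484.AH

section ev

variable {H H' : Type} [AddCommGroup H] [Module ℚ H] [AddCommGroup H'] [Module ℚ H']

/-- The canonical map. -/
noncomputable def ev (H H' : Type) [AddCommGroup H] [Module ℚ H] [AddCommGroup H'] [Module ℚ H'] :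
    (ℂ ⊗[ℚ] QMap H H') →ₗ[ℂ] CMap H H' :=
  LinearMap.liftBaseChange ℂ (LinearMap.baseChangeHom ℚ ℂ H H')

lemma ev_tmul (z : ℂ) (u : QMap H H') : ev H H' (z ⊗ₜ[ℚ] u) = z • complexify u := by
  rw [ev, LinearMap.liftBaseChange_tmul]
  rfl

variable [Module.Finite ℚ H] [Module.Finite ℚ H']

lemma ev_bijective : Function.Bijective (ev H H') := by
  classical
  let b := Module.finBasis ℚ H
  let b' := Module.finBasis ℚ H'
  let B := (b.linearMap b').baseChange ℂ
  let B' := (b.baseChange ℂ).linearMap (b'.baseChange ℂ)
  have h : ∀ i, ev H H' (B i) = B' i := by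
    intro i
    rw [Module.Basis.baseChange_apply, ev_tmul, one_smul]
    apply (b.baseChange ℂ).ext
    intro k
    rw [Module.Basis.linearMap_apply_apply]
    rw [Module.Basis.baseChange_apply, complexify, LinearMap.baseChange_tmul,
      Module.Basis.linearMap_apply_apply]
    split_ifs <;> simp
  have h2 : ev H H' = (B.equiv B' (Equiv.refl _)).toLinearMap := by
    apply B.ext
    intro i
    rw [h i]
    simp
  rw [h2]
  exact (B.equiv B' (Equiv.refl _)).bijective

end ev

section data

variable {H H' : Type} [AddCommGroup H] [Module ℚ H] [AddCommGroup H'] [Module ℚ H']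

/-- Maps of degree `p` are a subspace. -/
def degreeSub (D : HodgeData H) (D' : HodgeData H') (p : ℤ) : Submodule ℂ (CMap H H') where
  carrier := {T | HasDegree D D' p T}
  add_mem' {S T} hS hT := fun q x hx => by
    change (S + T) x ∈ D'.part (q + p)
    rw [LinearMap.add_apply]
    exact Submodule.add_mem _ (hS q x hx) (hT q x hx)
  zero_mem' := fun q x _ => by
    change (0 : CMap H H') x ∈ D'.part (q + p)
    rw [LinearMap.zero_apply]
    exact Submodule.zero_mem _
  smul_mem' z T hT := fun q x hx => by
    change (z • T) x ∈ D'.part (q + p)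
    rw [LinearMap.smul_apply]
    exact Submodule.smul_mem _ _ (hT q x hx)

lemma degreeSub_indep (D : HodgeData H) (D' : HodgeData H') (hD : D.Exhausts) :
    iSupIndep (degreeSub D D') := by
  intro p
  rw [Submodule.disjoint_def]
  intro T hT hT'
  have key : ∀ x, T x = 0 := by
    intro x
    have hx : x ∈ ⨆ q, D.part q := by
      have h : ⨆ q, D.part q = ⊤ := hD
      rw [h]
      exact Submodule.mem_top
    induction hx using Submodule.iSup_induction' with
    | mem q x hx =>
      have hind : iSupIndep (fun r => D'.part (q + r)) :=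
        D'.independent.comp (add_right_injective q)
      have h1 : T x ∈ D'.part (q + p) := hT q x hx
      have h2 : T x ∈ ⨆ r, ⨆ (_ : r ≠ p), D'.part (q + r) := by
        have h3 : (⨆ r, ⨆ (_ : r ≠ p), degreeSub D D' r) ≤
            Submodule.comap (LinearMap.applyₗ x : CMap H H' →ₗ[ℂ] (ℂ ⊗[ℚ] H'))
              (⨆ r, ⨆ (_ : r ≠ p), D'.part (q + r)) := by
          refine iSup_le fun r => iSup_le fun hr => ?_
          intro S hS
          rw [Submodule.mem_comap]
          refine Submodule.mem_iSup_of_mem r (Submodule.mem_iSup_of_mem hr ?_)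
          exact hS q x hx
        exact h3 hT'
      exact (Submodule.disjoint_def.1 (hind p)) _ h1 h2
    | zero => exact map_zero T
    | add x y _ _ hx hy => rw [map_add, hx, hy, add_zero]
  exact LinearMap.ext key

variable [Module.Finite ℚ H] [Module.Finite ℚ H']

/-- The Hodge types on the space of homomorphisms. -/
noncomputable def homData (D : HodgeData H) (D' : HodgeData H') (hD : D.Exhausts) :
    HodgeData (QMap H H') where
  part p := (degreeSub D D' p).comap (ev H H')
  independent := by
    intro p
    rw [Submodule.disjoint_def]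
    intro X hX hX'
    have h1 : ev H H' X ∈ ⨆ r, ⨆ (_ : r ≠ p), degreeSub D D' r := by
      have h3 : (⨆ r, ⨆ (_ : r ≠ p), (degreeSub D D' r).comap (ev H H')) ≤
          Submodule.comap (ev H H') (⨆ r, ⨆ (_ : r ≠ p), degreeSub D D' r) := by
        refine iSup_le fun r => iSup_le fun hr => ?_
        intro S hS
        rw [Submodule.mem_comap]
        exact Submodule.mem_iSup_of_mem r (Submodule.mem_iSup_of_mem hr hS)
      exact h3 hX'
    have h2 := (Submodule.disjoint_def.1 (degreeSub_indep D D' hD p)) _ hX h1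
    exact ev_bijective.1 (h2.trans (map_zero _).symm)

lemma homData_mem (D : HodgeData H) (D' : HodgeData H') (hD : D.Exhausts) (p : ℤ)
    (X : ℂ ⊗[ℚ] QMap H H') : (homData D D' hD).Mem p X ↔ HasDegree D D' p (ev H H' X) := Iff.rfl

lemma homData_isClass (D : HodgeData H) (D' : HodgeData H') (hD : D.Exhausts) (p : ℤ)
    (u : QMap H H') : (homData D D' hD).IsClass p u ↔ IsMorphism D D' p u := by
  rw [HodgeData.IsClass, homData_mem, ev_tmul, one_smul]
  rfl

variable {ι : Type} {K : ι → Type} [∀ i, Field (K i)] [∀ i, NumberField (K i)]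

lemma homData_isForm (Φ : Set (Emb K)) (D : HodgeData H) (D' : HodgeData H') (hD : D.Exhausts)
    (c : ℤ) {a : ℕ} (j : Fin a → ι) (f : Form K j (QMap H H'))
    (hf : IsTensorMorphism Φ D D' c j f) : (homData D D' hD).IsForm Φ c j f := by
  obtain ⟨T, hT, hf⟩ := hf
  choose X hX using fun φ => ev_bijective.2 (T φ)
  refine ⟨X, fun φ => ?_, fun x => ?_⟩
  · rw [homData_mem, hX]
    exact hT φ
  · apply ev_bijective.1
    rw [ev_tmul, one_smul, hf x, expandMap, expand, map_sum]
    refine Finset.sum_congr rfl fun φ _ => ?_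
    rw [map_smul, hX]

lemma homData_isProduct (Φ : Set (Emb K)) (D : HodgeData H) (D' : HodgeData H') (hD : D.Exhausts)
    (good : Set (QMap H H')) (c : ℤ) {a : ℕ} (j : Fin a → ι) (f : Form K j (QMap H H'))
    (hf : (homData D D' hD).IsProduct Φ good c j f) : IsProductMorphism Φ D D' good c j f := by
  obtain ⟨n, e, B, u, hB, hu, hg, hf⟩ := hf
  exact ⟨n, e, B, u, hB, (homData_isClass D D' hD _ _).1 hu, hg, hf⟩

lemma homData_products (Φ : Set (Emb K)) (D : HodgeData H) (D' : HodgeData H') (hD : D.Exhausts)
    (S : Finset ι) (h : (homData D D' hD).FormsAreProducts Φ S) :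
    MorphismsAreProducts Φ D D' S := by
  intro good hgood c a j hj f hf
  have h1 := h good (fun p u hu => hgood p u ((homData_isClass D D' hD p u).1 hu)) c a j hj f
    (homData_isForm Φ D D' hD c j f hf)
  exact Submodule.span_mono (fun f' hf' => homData_isProduct Φ D D' hD good c j f' hf') h1

end data

section final

variable {ι : Type} {K : ι → Type} [∀ i, Field (K i)] [∀ i, NumberField (K i)]
  [∀ i, NumberField.IsCMField (K i)]

/-- **Main theorem** for morphisms. -/
theorem mainHom {Φ : Set (Emb K)} (hΦ : IsCMType Φ) (hS : SignChanges K)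
    {β β' : Type} [Fintype β] [Fintype β']
    (H : β → Type) [∀ b, AddCommGroup (H b)] [∀ b, Module ℚ (H b)] [∀ b, Module.Finite ℚ (H b)]
    (H' : β' → Type) [∀ b, AddCommGroup (H' b)] [∀ b, Module ℚ (H' b)]
    [∀ b, Module.Finite ℚ (H' b)]
    (D : ∀ b, HodgeData (H b)) (D' : ∀ b, HodgeData (H' b)) (hD : ∀ b, (D b).Exhausts) :
    ∃ S : Finset ι, S.card ≤ (∑ b, finrank ℚ (H b)) * ∑ b, finrank ℚ (H' b) ∧
      ∀ b b', MorphismsAreProducts Φ (D b) (D' b') S := by
  obtain ⟨S, h1, h2⟩ := main' hΦ hS (fun x : β × β' => QMap (H x.1) (H' x.2))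
    (fun x => homData (D x.1) (D' x.2) (hD x.1))
  refine ⟨S, h1.trans_eq ?_, fun b b' => homData_products Φ _ _ (hD b) S (h2 (b, b'))⟩
  rw [Finset.sum_mul_sum, ← Finset.sum_product', Finset.univ_product_univ]
  exact Finset.sum_congr rfl fun x _ => Module.finrank_linearMap ℚ ℚ _ _

end final

end Pool.Agent.W484.AH
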