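import Mathlib
import Pool.Agent.W484.AH.Stm

/-!
# Algebraic classes on products with abelian varieties with complex multiplication
-/

set_option autoImplicit false

namespace Pool.Agent.W484.AH

variable {ι : Type} {K : ι → Type} [∀ i, Field (K i)] [∀ i, NumberField (K i)]

/-- `f` is the product of the bilinear forms `B k` of the pairs of variables and the class `h`. -/
def IsMul {H : Type} [AddCommGroup H] [Module ℚ H] {a n : ℕ} {j : Fin a → ι}
    (e : Fin n ⊕ Fin n ≃ Fin a) (B : ∀ k : Fin n, BForm K (j (e (Sum.inl k))) (j (e (Sum.inr k))))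
    (h : H) (f : Form K j H) : Prop := ∀ x, f x = pairProd e B x • h

/-- An element `∑ l, left l ⊗ right l` of `K i ⊗ K i'`. -/
structure Tensor (K : ι → Type) (i i' : ι) where
  /-- The number of the summands. -/
  len : ℕ
  /-- The first factors. -/
  left : Fin len → K i
  /-- The second factors. -/
  right : Fin len → K i'

/-- An element of `K i ⊗ K i'` is a *divisor tensor* if it is a Hodge class of type `(1, 1)` in
`H¹ (A i) ⊗ H¹ (A i')`: its components in the eigenspaces of two embeddings which are both in `Φ` or
both not in `Φ` are zero. -/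
def Tensor.IsDivisor (Φ : Set (Emb K)) {i i' : ι} (w : Tensor K i i') : Prop :=
  ∀ (φ : K i →+* ℂ) (ψ : K i' →+* ℂ), ((⟨i, φ⟩ : Emb K) ∈ Φ ↔ (⟨i', ψ⟩ : Emb K) ∈ Φ) →
    ∑ l, φ (w.left l) * ψ (w.right l) = 0

/-- The choices of a summand in each of the `w k`. -/
abbrev Choice {a n : ℕ} {j : Fin a → ι} (e : Fin n ⊕ Fin n ≃ Fin a)
    (w : ∀ k : Fin n, Tensor K (j (e (Sum.inl k))) (j (e (Sum.inr k)))) : Type :=
  ∀ k, Fin (w k).len

/-- `h` is the value of `f` at the product of the tensors `w k`: the sum of the values of `f` at the
points `z L`, where the coordinates of `z L` in the `k`-th pair are the factors of the `L k`-th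
summand of `w k`. -/
def IsValue {H : Type} [AddCommGroup H] [Module ℚ H] {a n : ℕ} {j : Fin a → ι}
    (e : Fin n ⊕ Fin n ≃ Fin a)
    (w : ∀ k : Fin n, Tensor K (j (e (Sum.inl k))) (j (e (Sum.inr k)))) (f : Form K j H) (h : H) :
    Prop :=
  ∃ z : Choice e w → ∀ t, K (j t),
    (∀ L k, z L (e (Sum.inl k)) = (w k).left (L k) ∧ z L (e (Sum.inr k)) = (w k).right (L k)) ∧
    h = ∑ L, f (z L)

/-- A family of subspaces of the spaces of multilinear maps to `H`. -/
abbrev Total (K : ι → Type) [∀ i, Field (K i)] [∀ i, NumberField (K i)] (H : Type)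
    [AddCommGroup H] [Module ℚ H] : Type :=
  ∀ (a : ℕ) (j : Fin a → ι), Submodule ℚ (Form K j H)

/-- All members of `total` are Hodge classes. -/
def AreHodge (Φ : Set (Emb K)) {H : Type} [AddCommGroup H] [Module ℚ H] (D : HodgeData H)
    (total : Total K H) : Prop :=
  ∀ (a : ℕ) (j : Fin a → ι) (f : Form K j H), f ∈ total a j → ∃ c, D.IsForm Φ c j f

/-- Products of divisor forms and classes in `base` are in `total`. -/
def HasProducts (Φ : Set (Emb K)) {H : Type} [AddCommGroup H] [Module ℚ H]
    (base : Submodule ℚ H) (total : Total K H) : Prop :=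
  ∀ (a n : ℕ) (j : Fin a → ι) (e : Fin n ⊕ Fin n ≃ Fin a)
    (B : ∀ k : Fin n, BForm K (j (e (Sum.inl k))) (j (e (Sum.inr k)))), (∀ k, IsDivisor Φ (B k)) →
    ∀ h ∈ base, ∀ f : Form K j H, IsMul e B h f → f ∈ total a j

/-- The values of members of `total` at products of divisor tensors are in `base`. -/
def HasValues (Φ : Set (Emb K)) {H : Type} [AddCommGroup H] [Module ℚ H]
    (base : Submodule ℚ H) (total : Total K H) : Prop :=
  ∀ (a n : ℕ) (j : Fin a → ι) (f : Form K j H), f ∈ total a j →
    ∀ (e : Fin n ⊕ Fin n ≃ Fin a)
      (w : ∀ k : Fin n, Tensor K (j (e (Sum.inl k))) (j (e (Sum.inr k)))),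
      (∀ k, (w k).IsDivisor Φ) → ∀ h, IsValue e w f h → h ∈ base

/-- `base` are the classes in the cohomology group `H` of a variety which are algebraic, `total a j`
are the classes in the tensor product of `H` and `H¹ (A (j 1)), …, H¹ (A (j a))` which are
algebraic. Algebraic classes are Hodge classes (`hodge`), products of divisor classes on the abelian
varieties and algebraic classes are algebraic (`product`), and if an algebraic class on the product
is multiplied with a product of divisor classes, the projection to the first factor is algebraic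
(`value`). -/
structure AlgebraicClasses (Φ : Set (Emb K)) {H : Type} [AddCommGroup H] [Module ℚ H]
    (D : HodgeData H) where
  /-- Algebraic classes of the first factor. -/
  base : Submodule ℚ H
  /-- Algebraic classes of the product. -/
  total : Total K H
  /-- Algebraic classes are Hodge classes. -/
  hodge : AreHodge Φ D total
  /-- Products of divisors and algebraic classes are algebraic. -/
  product : HasProducts Φ base total
  /-- The values of algebraic classes at products of divisor tensors are algebraic. -/
  value : HasValues Φ base total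

end Pool.Agent.W484.AH
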