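import Mathlib
import Pool.Agent.W484.AH.Bridge
import Pool.Agent.W484.AH.StmVar

/-!
# Algebraic classes on products with abelian varieties with complex multiplication
-/

set_option autoImplicit false

open scoped TensorProduct
open Module

namespace Pool.Agent.W484.AH

section tensors

variable {ι : Type} {K : ι → Type} [∀ i, Field (K i)] [∀ i, NumberField (K i)]

/-- Dual bases for the trace form. -/
lemma exists_dual (F : Type) [Field F] [NumberField F] :
    ∃ (b : Basis (Fin (finrank ℚ F)) ℚ F) (ξ : Fin (finrank ℚ F) → F),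
      ∀ φ ψ : F →+* ℂ, ∑ l, φ (b l) * ψ (ξ l) = open Classical in if φ = ψ then 1 else 0 := by
  classical
  let b := Module.finBasis ℚ F
  let ξ : Fin (finrank ℚ F) → F := fun l => (LinearMap.BilinForm.toDual (Algebra.traceForm ℚ F)
      (traceForm_nondegenerate ℚ F)).symm (b.coord l)
  have hξ : ∀ l z, Algebra.trace ℚ F (ξ l * z) = b.coord l z := fun l z =>
    LinearMap.BilinForm.apply_toDual_symm_apply (hB := traceForm_nondegenerate ℚ F)
      (f := b.coord l) z
  have htr : ∀ x : F, ((Algebra.trace ℚ F x : ℚ) : ℂ) = ∑ ψ : F →+* ℂ, ψ x := by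
    intro x
    have h2 := trace_eq_sum_embeddings (K := ℚ) (L := F) ℂ (x := x)
    rw [← Fintype.sum_equiv (RingHom.equivRatAlgHom F ℂ)
      (fun f => f x) (fun f => f x)
      (fun f => by simp [RingHom.equivRatAlgHom_apply])] at h2
    rw [← h2]
    rfl
  refine ⟨b, ξ, fun φ ψ => ?_⟩
  have hli := (linearIndependent_monoidHom F ℂ).comp
    (fun φ : F →+* ℂ => (φ : F →* ℂ)) (fun φ ψ h => RingHom.ext fun x => DFunLike.congr_fun h x)
  rw [Fintype.linearIndependent_iff] at hli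
  have h0 := hli (fun ψ => (∑ l, φ (b l) * ψ (ξ l)) - if φ = ψ then 1 else 0) ?_ ψ
  · exact sub_eq_zero.1 h0
  · funext x
    rw [Finset.sum_apply, Pi.zero_apply]
    have h1 : φ x = ∑ ψ : F →+* ℂ, (∑ l, φ (b l) * ψ (ξ l)) * ψ x := by
      conv_lhs => rw [← b.sum_repr x]
      rw [map_sum]
      have h2 : ∀ l, φ (b.repr x l • b l) = ∑ ψ : F →+* ℂ, φ (b l) * ψ (ξ l) * ψ x := by
        intro l
        have h3 : b.repr x l = Algebra.trace ℚ F (ξ l * x) := (hξ l x).symm
        rw [Rat.smul_def, map_mul, map_ratCast, h3, htr, mul_comm, Finset.mul_sum]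
        refine Finset.sum_congr rfl fun ψ _ => ?_
        rw [map_mul]
        ring
      rw [Finset.sum_congr rfl fun l _ => h2 l, Finset.sum_comm]
      exact Finset.sum_congr rfl fun ψ _ => (Finset.sum_mul _ _ _).symm
    have h4 : ∑ ψ : F →+* ℂ, (if φ = ψ then (1 : ℂ) else 0) * ψ x = φ x := by
      simp
    have h5 : ∑ ψ : F →+* ℂ, ((∑ l, φ (b l) * ψ (ξ l)) - if φ = ψ then (1 : ℂ) else 0) * ψ x = 0 := by
      simp only [sub_mul, Finset.sum_sub_distrib]
      rw [← h1, h4, sub_self]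
    exact h5

variable [∀ i, NumberField.IsCMField (K i)] {Φ : Set (Emb K)}

/-- The eigenvectors of conjugate embeddings are combinations of divisor tensors. -/
lemma tensor_span0 (hΦ : IsCMType Φ) (i : ι) (φ₀ : K i →+* ℂ) :
    ∃ (n : ℕ) (z : Fin n → ℂ) (w : Fin n → Tensor K i i),
      (∀ r, (w r).IsDivisor Φ) ∧
      ∀ (φ : K i →+* ℂ) (ψ : K i →+* ℂ),
        ∑ r, z r * ∑ l, φ ((w r).left l) * ψ ((w r).right l) =
          open Classical in if φ = φ₀ ∧ ψ = (starRingEnd ℂ).comp φ₀ then 1 else 0 := by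
  classical
  obtain ⟨b, ξ, hb⟩ := exists_dual (K i)
  have hw : ∀ (r : Fin (finrank ℚ (K i))) (φ ψ : K i →+* ℂ),
      ∑ l, φ (ξ r * b l) * ψ (NumberField.IsCMField.complexConj (K i) (ξ l)) =
        φ (ξ r) * if φ = (starRingEnd ℂ).comp ψ then 1 else 0 := by
    intro r φ ψ
    rw [← hb φ ((starRingEnd ℂ).comp ψ), Finset.mul_sum]
    refine Finset.sum_congr rfl fun l _ => ?_
    have := NumberField.IsCMField.complexEmbedding_complexConj (K i) ψ (ξ l)
    rw [this, map_mul, mul_assoc]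
    rfl
  have hcc : ∀ φ ψ : K i →+* ℂ, φ = (starRingEnd ℂ).comp ψ → ψ = (starRingEnd ℂ).comp φ := by
    intro φ ψ h
    rw [h]
    ext x
    exact (Complex.conj_conj _).symm
  refine ⟨finrank ℚ (K i), fun r => φ₀ (b r),
    fun r => ⟨finrank ℚ (K i), fun l => ξ r * b l,
      fun l => NumberField.IsCMField.complexConj (K i) (ξ l)⟩, fun r φ ψ h => ?_, fun φ ψ => ?_⟩
  · change ∑ l, φ (ξ r * b l) * ψ (NumberField.IsCMField.complexConj (K i) (ξ l)) = 0
    rw [hw r φ ψ, if_neg, mul_zero]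
    intro hc
    have h1 := hΦ ⟨i, ψ⟩
    have h2 : bar (⟨i, ψ⟩ : Emb K) = ⟨i, φ⟩ := by rw [hc]; rfl
    rw [h2] at h1
    have h3 : (⟨i, φ⟩ : Emb K) ∈ Φ ↔ (⟨i, ψ⟩ : Emb K) ∈ Φ := h
    tauto
  · change ∑ r, φ₀ (b r) * ∑ l, φ (ξ r * b l) * ψ (NumberField.IsCMField.complexConj (K i) (ξ l)) = _
    simp only [hw]
    have h1 : ∑ r, φ₀ (b r) * (φ (ξ r) * if φ = (starRingEnd ℂ).comp ψ then (1 : ℂ) else 0)
        = (if φ₀ = φ then 1 else 0) * if φ = (starRingEnd ℂ).comp ψ then (1 : ℂ) else 0 := by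
      rw [← hb φ₀ φ, Finset.sum_mul]
      exact Finset.sum_congr rfl fun r _ => (mul_assoc _ _ _).symm
    rw [h1]
    by_cases h2 : φ₀ = φ
    · subst h2
      by_cases h3 : φ₀ = (starRingEnd ℂ).comp ψ
      · rw [if_pos rfl, if_pos h3, if_pos ⟨rfl, hcc _ _ h3⟩, mul_one]
      · rw [if_neg h3, mul_zero, if_neg]
        rintro ⟨-, h4⟩
        exact h3 (hcc _ _ h4)
    · rw [if_neg h2, zero_mul, if_neg]
      rintro ⟨h4, -⟩
      exact h2 h4.symm

/-- The eigenvectors of conjugate embeddings are combinations of divisor tensors. -/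
lemma tensor_span (hΦ : IsCMType Φ) (e f : Emb K) (hf : f = bar e) :
    ∃ (n : ℕ) (z : Fin n → ℂ) (w : Fin n → Tensor K e.1 f.1),
      (∀ r, (w r).IsDivisor Φ) ∧
      ∀ (φ : K e.1 →+* ℂ) (ψ : K f.1 →+* ℂ),
        ∑ r, z r * ∑ l, φ ((w r).left l) * ψ ((w r).right l) =
          open Classical in if φ = e.2 ∧ ψ = f.2 then 1 else 0 := by
  subst hf
  exact tensor_span0 hΦ e.1 e.2

end tensors

section values

variable {ι : Type} {K : ι → Type} [∀ i, Field (K i)] [∀ i, NumberField (K i)]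
  [∀ i, NumberField.IsCMField (K i)] {Φ : Set (Emb K)} {H : Type} [AddCommGroup H] [Module ℚ H]

/-- Points with given coordinates in the pairs. -/
lemma exists_point {a n : ℕ} {j : Fin a → ι} (e : Fin n ⊕ Fin n ≃ Fin a)
    (x : ∀ k : Fin n, K (j (e (Sum.inl k)))) (y : ∀ k : Fin n, K (j (e (Sum.inr k)))) :
    ∃ z : ∀ t, K (j t), ∀ k, z (e (Sum.inl k)) = x k ∧ z (e (Sum.inr k)) = y k := by
  let g : ∀ s : Fin n ⊕ Fin n, K (j (e s)) := fun s => Sum.rec (motive := fun s => K (j (e s))) x y s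
  refine ⟨Equiv.piCongrLeft (fun t => K (j t)) e g, fun k => ⟨?_, ?_⟩⟩
  · exact Equiv.piCongrLeft_apply_apply (fun t => K (j t)) e g (Sum.inl k)
  · exact Equiv.piCongrLeft_apply_apply (fun t => K (j t)) e g (Sum.inr k)

/-- If all the values at products of divisor tensors are in `G`, all values are in `G`. -/
lemma values_mem (hΦ : IsCMType Φ) (G : Submodule ℚ H) {a : ℕ} {j : Fin a → ι}
    {f : Form K j H} {X : (∀ t, K (j t) →+* ℂ) → ℂ ⊗[ℚ] H}
    (hX : ∀ x : (∀ t, K (j t)), (1 : ℂ) ⊗ₜ[ℚ] f x =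
      ∑ φ : (∀ t, K (j t) →+* ℂ), (∏ t, φ t (x t)) • X φ)
    (hbal : ∀ φ, X φ ≠ 0 → ∀ e, mult (fun t => (⟨j t, φ t⟩ : Emb K)) e
      = mult (fun t => (⟨j t, φ t⟩ : Emb K)) (bar e))
    (hG : ∀ (n : ℕ) (e : Fin n ⊕ Fin n ≃ Fin a)
      (w : ∀ k : Fin n, Tensor K (j (e (Sum.inl k))) (j (e (Sum.inr k)))),
      (∀ k, (w k).IsDivisor Φ) → ∀ h, IsValue e w f h → h ∈ G) (x : ∀ t, K (j t)) : f x ∈ G := by
  classical
  by_contra hx
  obtain ⟨ℓ, hℓ1, hℓ2⟩ := Submodule.exists_le_ker_of_notMem hx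
  let Lam : (ℂ ⊗[ℚ] H) →ₗ[ℂ] ℂ :=
    (TensorProduct.AlgebraTensorModule.rid ℚ ℂ ℂ).toLinearMap ∘ₗ LinearMap.baseChange ℂ ℓ
  have hLam : ∀ h : H, Lam ((1 : ℂ) ⊗ₜ[ℚ] h) = ((ℓ h : ℚ) : ℂ) := by
    intro h
    simp [Lam, Rat.smul_def]
  have hval : ∀ y : (∀ t, K (j t)), ((ℓ (f y) : ℚ) : ℂ) =
      ∑ φ : (∀ t, K (j t) →+* ℂ), (∏ t, φ t (y t)) * Lam (X φ) := by
    intro y
    rw [← hLam, hX y, map_sum]
    exact Finset.sum_congr rfl fun φ _ => by rw [map_smul, smul_eq_mul]
  have hzero : ∀ φ, Lam (X φ) = 0 := by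
    intro φ₀
    by_cases h0 : X φ₀ = 0
    · rw [h0, map_zero]
    obtain ⟨n, e, he, -, -⟩ := exists_matching hΦ _ (hbal φ₀ h0)
    have hd := fun k : Fin n => tensor_span hΦ (⟨j (e (Sum.inl k)), φ₀ (e (Sum.inl k))⟩ : Emb K)
      (⟨j (e (Sum.inr k)), φ₀ (e (Sum.inr k))⟩ : Emb K) (he k)
    choose m c w hw hc using hd
    have hR : ∀ R : (∀ k : Fin n, Fin (m k)),
        ∑ φ : (∀ t, K (j t) →+* ℂ), (∏ k, ∑ l, φ (e (Sum.inl k)) ((w k (R k)).left l) *
          φ (e (Sum.inr k)) ((w k (R k)).right l)) * Lam (X φ) = 0 := by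
      intro R
      have hpt := fun L : Choice e (fun k => w k (R k)) =>
        exists_point e (fun k => (w k (R k)).left (L k)) (fun k => (w k (R k)).right (L k))
      choose z hz using hpt
      have h1 := hℓ2 (hG n e (fun k => w k (R k)) (fun k => hw k (R k)) _ ⟨z, hz, rfl⟩)
      rw [LinearMap.mem_ker, map_sum] at h1
      have h2 : ∑ L : Choice e (fun k => w k (R k)), ((ℓ (f (z L)) : ℚ) : ℂ) = 0 := by
        rw [← Rat.cast_sum, h1, Rat.cast_zero]
      simp only [hval] at h2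
      rw [Finset.sum_comm] at h2
      rw [← h2]
      refine Finset.sum_congr rfl fun φ _ => ?_
      rw [← Finset.sum_mul]
      congr 1
      rw [Finset.prod_univ_sum, Fintype.piFinset_univ]
      refine Finset.sum_congr rfl fun L _ => ?_
      rw [← e.prod_comp, Fintype.prod_sum_type, Finset.prod_mul_distrib]
      congr 1
      · exact Finset.prod_congr rfl fun k _ => by rw [(hz L k).1]
      · exact Finset.prod_congr rfl fun k _ => by rw [(hz L k).2]
    have hsum : ∑ R : (∀ k : Fin n, Fin (m k)), (∏ k, c k (R k)) *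
        ∑ φ : (∀ t, K (j t) →+* ℂ), (∏ k, ∑ l, φ (e (Sum.inl k)) ((w k (R k)).left l) *
          φ (e (Sum.inr k)) ((w k (R k)).right l)) * Lam (X φ) = 0 :=
      Finset.sum_eq_zero fun R _ => by rw [hR R, mul_zero]
    have hdelta : ∀ φ : (∀ t, K (j t) →+* ℂ),
        ∑ R : (∀ k : Fin n, Fin (m k)), (∏ k, c k (R k)) *
          (∏ k, ∑ l, φ (e (Sum.inl k)) ((w k (R k)).left l) *
            φ (e (Sum.inr k)) ((w k (R k)).right l)) = if φ = φ₀ then 1 else 0 := by
      intro φ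
      have h1 : ∀ R : (∀ k : Fin n, Fin (m k)), (∏ k, c k (R k)) *
          (∏ k, ∑ l, φ (e (Sum.inl k)) ((w k (R k)).left l) *
            φ (e (Sum.inr k)) ((w k (R k)).right l)) =
          ∏ k, (c k (R k) * ∑ l, φ (e (Sum.inl k)) ((w k (R k)).left l) *
            φ (e (Sum.inr k)) ((w k (R k)).right l)) := fun R => Finset.prod_mul_distrib.symm
      rw [Finset.sum_congr rfl fun R _ => h1 R]
      have h2 := Finset.prod_univ_sum (fun k : Fin n => (Finset.univ : Finset (Fin (m k))))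
        (fun k r => c k r * ∑ l, φ (e (Sum.inl k)) ((w k r).left l) *
            φ (e (Sum.inr k)) ((w k r).right l))
      rw [Fintype.piFinset_univ] at h2
      rw [← h2]
      simp only [hc]
      split_ifs with h
      · subst h
        simp
      · have : ∃ k, ¬ (φ (e (Sum.inl k)) = φ₀ (e (Sum.inl k)) ∧
            φ (e (Sum.inr k)) = φ₀ (e (Sum.inr k))) := by
          by_contra hcon
          push Not at hcon
          apply h
          funext t
          obtain ⟨u, rfl⟩ := e.surjective t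
          rcases u with k | k
          · exact (hcon k).1
          · exact (hcon k).2
        obtain ⟨k, hk⟩ := this
        exact Finset.prod_eq_zero (Finset.mem_univ k) (if_neg hk)
    simp only [Finset.mul_sum] at hsum
    rw [Finset.sum_comm] at hsum
    have h3 : ∀ φ : (∀ t, K (j t) →+* ℂ),
        ∑ R : (∀ k : Fin n, Fin (m k)), (∏ k, c k (R k)) *
          ((∏ k, ∑ l, φ (e (Sum.inl k)) ((w k (R k)).left l) *
            φ (e (Sum.inr k)) ((w k (R k)).right l)) * Lam (X φ)) =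
        (if φ = φ₀ then 1 else 0) * Lam (X φ) := by
      intro φ
      rw [← hdelta φ, Finset.sum_mul]
      exact Finset.sum_congr rfl fun R _ => (mul_assoc _ _ _).symm
    rw [Finset.sum_congr rfl fun φ _ => h3 φ] at hsum
    simpa using hsum
  have h1 := hval x
  rw [Finset.sum_congr rfl fun φ _ => by rw [hzero φ, mul_zero], Finset.sum_const_zero] at h1
  exact hℓ1 (by exact_mod_cast h1)

end values

end Pool.Agent.W484.AH
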