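import Mathlib
import Pool.Agent.W484.AH.Var

/-!
# The main theorem for algebraic classes
-/

set_option autoImplicit false

open scoped TensorProduct
open Module

namespace Pool.Agent.W484.AH

section spanG

variable {ι : Type} {K : ι → Type} [∀ i, Field (K i)] [∀ i, NumberField (K i)]
  [∀ i, NumberField.IsCMField (K i)] {H : Type} [AddCommGroup H] [Module ℚ H]

/-- If all the components of a Hodge form are balanced and all values are in `G`, it is a
combination of product forms with classes in `G`. -/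
theorem span_of_values {Φ : Set (Emb K)} (hΦ : IsCMType Φ) [Module.Finite ℚ H]
    {Hd : ℤ → Submodule ℂ (ℂ ⊗[ℚ] H)} (G : Submodule ℚ H)
    {c : ℤ} {a : ℕ} {j : Fin a → ι} {f : MultilinearMap ℚ (fun t => K (j t)) H}
    {X : (∀ t, K (j t) →+* ℂ) → ℂ ⊗[ℚ] H}
    (hX1 : ∀ φ, X φ ∈ Hd (c + ({t | (⟨j t, φ t⟩ : Emb K) ∈ Φ} : Set (Fin a)).ncard))
    (hX : ∀ x : (∀ t, K (j t)), (1 : ℂ) ⊗ₜ[ℚ] f x =
      ∑ φ : (∀ t, K (j t) →+* ℂ), (∏ t, φ t (x t)) • X φ)
    (hbal : ∀ φ, X φ ≠ 0 → ∀ e, mult (fun t => (⟨j t, φ t⟩ : Emb K)) e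
      = mult (fun t => (⟨j t, φ t⟩ : Emb K)) (bar e)) (hG : ∀ x, f x ∈ G) :
    f ∈ Submodule.span ℚ {f' | IsProductForm Φ Hd (G : Set H) c j f'} := by
  classical
  -- the values are Hodge classes
  let m : ℤ := c + (a / 2 : ℕ)
  have hXm : ∀ φ, X φ ∈ Hd m := by
    intro φ
    by_cases h0 : X φ = 0
    · rw [h0]; exact Submodule.zero_mem _
    · obtain ⟨n, e, -, h1, h2⟩ := exists_matching hΦ _ (hbal φ h0)
      have h3 := hX1 φ
      rw [h1] at h3
      have : m = c + n := by simp only [m]; omega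
      rwa [this]
  have hval : ∀ x, f x ∈ hodgeSub Hd m ⊓ G := by
    intro x
    refine ⟨?_, hG x⟩
    change (1 : ℂ) ⊗ₜ[ℚ] f x ∈ Hd m
    rw [hX x]
    exact Submodule.sum_mem _ fun φ _ => Submodule.smul_mem _ _ (hXm φ)
  let W : Submodule ℚ H := hodgeSub Hd m ⊓ G
  let b := Module.finBasis ℚ W
  have hext : ∀ l, ∃ ℓ : H →ₗ[ℚ] ℚ, ℓ.comp W.subtype = b.coord l := fun l =>
    LinearMap.exists_extend (b.coord l)
  choose ell hell using hext
  have hfx : ∀ x, f x = ∑ l, ell l (f x) • (b l : H) := by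
    intro x
    have h1 := b.sum_repr (⟨f x, hval x⟩ : W)
    have h2 := congrArg W.subtype h1
    rw [map_sum] at h2
    simp only [map_smul, Submodule.coe_subtype] at h2
    rw [← h2]
    refine Finset.sum_congr rfl fun l _ => ?_
    congr 1
    rw [h2]
    have h3 := LinearMap.congr_fun (hell l) (⟨f x, hval x⟩ : W)
    exact h3.symm
  have hmem : ∀ l, (fun x => ell l (f x)) ∈ Submodule.span ℚ (scalarForms Φ j) := by
    intro l
    apply descent
    let Lam : (ℂ ⊗[ℚ] H) →ₗ[ℂ] ℂ :=
      (TensorProduct.AlgebraTensorModule.rid ℚ ℂ ℂ).toLinearMap ∘ₗ LinearMap.baseChange ℂ (ell l)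
    have hLam : ∀ h : H, Lam ((1 : ℂ) ⊗ₜ[ℚ] h) = ((ell l h : ℚ) : ℂ) := by
      intro h
      simp [Lam, Rat.smul_def]
    have heq : (fun x => ((ell l (f x) : ℚ) : ℂ)) =
        ∑ φ : (∀ t, K (j t) →+* ℂ), Lam (X φ) • (fun x : (∀ t, K (j t)) => ∏ t, φ t (x t)) := by
      funext x
      rw [← hLam, hX x, map_sum, Finset.sum_apply]
      refine Finset.sum_congr rfl fun φ _ => ?_
      rw [map_smul, Pi.smul_apply, smul_eq_mul, smul_eq_mul, mul_comm]
    rw [heq]
    refine Submodule.sum_mem _ fun φ _ => ?_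
    by_cases h0 : X φ = 0
    · rw [h0, map_zero, zero_smul]
      exact Submodule.zero_mem _
    · exact Submodule.smul_mem _ _ (chi_mem hΦ φ (hbal φ h0))
  -- assemble
  have hcoe : Function.Injective (coeL (K := K) (j := j) H) := fun f g h =>
    MultilinearMap.ext fun x => congrFun h x
  have himg : coeL H f ∈ Submodule.map (coeL H)
      (Submodule.span ℚ {f' | IsProductForm Φ Hd (G : Set H) c j f'}) := by
    have hf : coeL H f = ∑ l, fun x => ell l (f x) • (b l : H) := by
      funext x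
      rw [Finset.sum_apply]
      exact hfx x
    rw [hf]
    refine Submodule.sum_mem _ fun l _ => ?_
    let T : ((∀ t, K (j t)) → ℚ) →ₗ[ℚ] ((∀ t, K (j t)) → H) :=
      { toFun := fun g x => g x • (b l : H)
        map_add' := fun g g' => by
          funext x
          simp [add_smul]
        map_smul' := fun q g => by
          funext x
          simp [mul_smul] }
    have hT : ∀ g ∈ Submodule.span ℚ (scalarForms Φ j), T g ∈ Submodule.map (coeL H)
        (Submodule.span ℚ {f' | IsProductForm Φ Hd (G : Set H) c j f'}) := by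
      intro g hg
      induction hg using Submodule.span_induction with
      | mem g hg =>
        obtain ⟨n, e, B, hB, rfl⟩ := hg
        refine ⟨(prodForm e B).smulRight (b l : H), Submodule.subset_span ?_, rfl⟩
        have hn : m = c + n := by
          have := Fintype.card_congr e
          rw [Fintype.card_sum, Fintype.card_fin, Fintype.card_fin] at this
          simp only [m]
          omega
        refine ⟨n, e, B, (b l : H), hB, ?_, (b l).2.2, fun x => rfl⟩
        rw [← hn]
        exact (b l).2.1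
      | zero => rw [map_zero]; exact Submodule.zero_mem _
      | add g g' _ _ hg hg' => rw [map_add]; exact Submodule.add_mem _ hg hg'
      | smul q g _ hg => rw [map_smul]; exact Submodule.smul_mem _ _ hg
    exact hT _ (hmem l)
  obtain ⟨f', hf', he⟩ := himg
  rw [← hcoe he]
  exact hf'

end spanG

section final

variable {ι : Type} {K : ι → Type} [∀ i, Field (K i)] [∀ i, NumberField (K i)]
  [∀ i, NumberField.IsCMField (K i)]

/-- Outside a small set all Hodge forms have balanced components. -/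
theorem balanced {Φ : Set (Emb K)} (hΦ : IsCMType Φ) (hS : SignChanges K)
    {H : Type} [AddCommGroup H] [Module ℚ H] [Module.Finite ℚ H]
    {Hd : ℤ → Submodule ℂ (ℂ ⊗[ℚ] H)} (hHd : iSupIndep Hd) :
    ∃ S : Finset ι, S.card ≤ finrank ℚ H ∧
      ∀ (c : ℤ) (a : ℕ) (j : Fin a → ι), (∀ t, j t ∉ S) →
      ∀ (f : MultilinearMap ℚ (fun t => K (j t)) H) (X : (∀ t, K (j t) →+* ℂ) → ℂ ⊗[ℚ] H),
      (∀ φ, X φ ∈ Hd (c + ({t | (⟨j t, φ t⟩ : Emb K) ∈ Φ} : Set (Fin a)).ncard)) →
      (∀ x : (∀ t, K (j t)), (1 : ℂ) ⊗ₜ[ℚ] f x =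
        ∑ φ : (∀ t, K (j t) →+* ℂ), (∏ t, φ t (x t)) • X φ) →
      ∀ φ, X φ ≠ 0 → ∀ e, mult (fun t => (⟨j t, φ t⟩ : Emb K)) e
        = mult (fun t => (⟨j t, φ t⟩ : Emb K)) (bar e) := by
  classical
  have hB : (bad Φ Hd).Finite := by
    by_contra hinf
    obtain ⟨S, hS1, hS2⟩ := Set.Infinite.exists_subset_card_eq hinf (finrank ℚ H + 1)
    have := bad_small hΦ hS hHd S (fun i hi => hS1 hi)
    omega
  refine ⟨hB.toFinset, bad_small hΦ hS hHd _ (fun i hi => by simpa using hi), ?_⟩
  intro c a j hj f X hX1 hX φ hne e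
  by_contra hmul
  have hE := eff_of_ne hX1 hX hne
  have hbad : e.1 ∈ bad Φ Hd := ⟨a, _, c, e, hE, rfl, hmul⟩
  have hex : ∃ t, j t = e.1 := by
    by_contra hc
    push Not at hc
    apply hmul
    have h1 : ∀ e' : Emb K, e'.1 = e.1 →
        mult (fun t => (⟨j t, φ t⟩ : Emb K)) e' = 0 := by
      intro e' he'
      rw [mult, Finset.card_eq_zero, Finset.filter_eq_empty_iff]
      intro t _ h
      exact hc t (by rw [← he', ← h])
    rw [h1 e rfl, h1 (bar e) rfl]
  obtain ⟨t, ht⟩ := hex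
  apply hj t
  rw [Set.Finite.mem_toFinset, ht]
  exact hbad

/-- **Main theorem** for algebraic classes. -/
theorem mainVar {Φ : Set (Emb K)} (hΦ : IsCMType Φ) (hS : SignChanges K)
    {β : Type} [Fintype β] (H : β → Type) [∀ b, AddCommGroup (H b)] [∀ b, Module ℚ (H b)]
    [∀ b, Module.Finite ℚ (H b)] (D : ∀ b, HodgeData (H b)) :
    ∃ S : Finset ι, S.card ≤ ∑ b, finrank ℚ (H b) ∧
      ∀ (b : β) (P P' : AlgebraicClasses Φ (D b)), P.base ≤ P'.base →
        ∀ (a : ℕ) (j : Fin a → ι), (∀ t, j t ∉ S) → P.total a j ≤ P'.total a j := by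
  classical
  have hfin := fun b => balanced hΦ hS (D b).independent
  choose S hS1 hS2 using hfin
  refine ⟨Finset.univ.biUnion S, ?_, ?_⟩
  · exact Finset.card_biUnion_le.trans (Finset.sum_le_sum fun b _ => hS1 b)
  · intro b P P' hP a j hj f hf
    obtain ⟨c, X, hX1, hX⟩ := P.hodge a j f hf
    have hbal := hS2 b c a j
      (fun t ht => hj t (Finset.mem_biUnion.2 ⟨b, Finset.mem_univ _, ht⟩)) f X hX1 hX
    have hval := values_mem hΦ P.base hX hbal
      (fun n e w hw h hh => P.value a n j f hf e w hw h hh)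
    have hspan := span_of_values hΦ P.base hX1 hX hbal hval
    have hle : Submodule.span ℚ {f' | IsProductForm Φ (D b).part (P.base : Set (H b)) c j f'} ≤
        P'.total a j := by
      rw [Submodule.span_le]
      rintro f' ⟨n, e, B, h, hB, -, hh, hf'⟩
      exact P'.product a n j e B hB h (hP hh) f' hf'
    exact hle hspan

/-- **Main theorem**, Hodge classes. -/
theorem mainHodge {Φ : Set (Emb K)} (hΦ : IsCMType Φ) (hS : SignChanges K)
    {β : Type} [Fintype β] (H : β → Type) [∀ b, AddCommGroup (H b)] [∀ b, Module ℚ (H b)]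
    [∀ b, Module.Finite ℚ (H b)] (D : ∀ b, HodgeData (H b)) :
    ∃ S : Finset ι, S.card ≤ ∑ b, finrank ℚ (H b) ∧
      ∀ (b : β) (base : Submodule ℚ (H b)) (total : Total K (H b)), HasProducts Φ base total →
        (∀ p h, (D b).IsClass p h → h ∈ base) →
        ∀ (c : ℤ) (a : ℕ) (j : Fin a → ι), (∀ t, j t ∉ S) →
          ∀ f : Form K j (H b), (D b).IsForm Φ c j f → f ∈ total a j := by
  classical
  obtain ⟨S, h1, h2⟩ := main' hΦ hS H D
  refine ⟨S, h1, fun b base total hprod hbase c a j hj f hf => ?_⟩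
  have h3 := h2 b (base : Set (H b)) (fun p h hh => hbase p h hh) c a j hj f hf
  have hle : Submodule.span ℚ {f' | (D b).IsProduct Φ (base : Set (H b)) c j f'} ≤
      total a j := by
    rw [Submodule.span_le]
    rintro f' ⟨n, e, B, h, hB, -, hh, hf'⟩
    exact hprod a n j e B hB h hh f' hf'
  exact hle h3

end final

end Pool.Agent.W484.AH
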